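import Mathlib

/-!
The `(1,1)` edge-removal process: definitions and the deterministic part.
-/

open Finset

namespace Pool.Agent.V11324.ER

/-- Edges `(a, b)`, `a < b`, of the complete acyclic graph on `n` vertices. -/
abbrev Edge (n : ℕ) : Type := {e : Fin n × Fin n // e.1 < e.2}

/-- Number of edges, `n choose 2`. -/
abbrev numE (n : ℕ) : ℕ := Fintype.card (Edge n)

/-- Orderings of the edges: `σ e` is the time at which `e` is examined. -/
abbrev Order (n : ℕ) : Type := Edge n ≃ Fin (numE n)

/-- Vertices without incoming edge. -/
def initials {n : ℕ} (H : Finset (Edge n)) : Finset (Fin n) :=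
  univ.filter fun v => ∀ e ∈ H, e.1.2 ≠ v

/-- Vertices without outgoing edge. -/
def terminals {n : ℕ} (H : Finset (Edge n)) : Finset (Fin n) :=
  univ.filter fun v => ∀ e ∈ H, e.1.1 ≠ v

/-- At most one initial and at most one terminal vertex. -/
def Admissible {n : ℕ} (H : Finset (Edge n)) : Prop :=
  (initials H).card ≤ 1 ∧ (terminals H).card ≤ 1

instance {n : ℕ} (H : Finset (Edge n)) : Decidable (Admissible H) := by
  unfold Admissible; infer_instance

/-- Examination of the edge `e` in the current graph `H`: it is deleted unless the deletion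
would leave more than one initial or more than one terminal vertex. -/
def exam {n : ℕ} (H : Finset (Edge n)) (e : Edge n) : Finset (Edge n) :=
  if Admissible (H.erase e) then H.erase e else H

/-- Output of the process for the ordering `σ`: start from all edges and examine them in the
order given by `σ`. -/
def output {n : ℕ} (σ : Order n) : Finset (Edge n) :=
  (List.ofFn fun i => σ.symm i).foldl exam univ

/-- Maximum directed path length (number of edges): the largest `k` such that there are vertices
`v 0, …, v k` with `(v i, v (i+1)) ∈ H` for all `i < k`. -/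
noncomputable def maxLen {n : ℕ} (H : Finset (Edge n)) : ℕ :=
  sSup {k : ℕ | ∃ v : ℕ → Fin n, ∀ i < k, ∃ h : v i < v (i + 1),
    (⟨(v i, v (i + 1)), h⟩ : Edge n) ∈ H}

/-- Expected maximum directed path length of the output, for a uniformly random ordering. -/
noncomputable def expLen (n : ℕ) : ℝ :=
  (∑ σ : Order n, (maxLen (output σ) : ℝ)) / (Fintype.card (Order n) : ℝ)

variable {n : ℕ}

lemma exam_subset (H : Finset (Edge n)) (e : Edge n) : exam H e ⊆ H := by
  unfold exam
  split_ifs
  · exact erase_subset _ _
  · exact Subset.refl _

lemma run_subset (L : List (Edge n)) : ∀ H : Finset (Edge n), L.foldl exam H ⊆ H := by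
  induction L with
  | nil => intro H; exact Subset.refl _
  | cons e L ih => intro H; exact (ih _).trans (exam_subset H e)

lemma exam_admissible {H : Finset (Edge n)} (hH : Admissible H) (e : Edge n) :
    Admissible (exam H e) := by
  unfold exam
  split_ifs with h
  · exact h
  · exact hH

lemma run_admissible (L : List (Edge n)) : ∀ {H : Finset (Edge n)}, Admissible H →
    Admissible (L.foldl exam H) := by
  induction L with
  | nil => intro H hH; exact hH
  | cons e L ih => intro H hH; exact ih (exam_admissible hH e)

lemma run_cand (σ : Order n) (L : List (Edge n)) : ∀ H : Finset (Edge n), Admissible H →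
    L.Pairwise (fun e f => σ e < σ f) → (∀ e ∈ L, e ∈ H) → ∀ e ∈ L, e ∈ L.foldl exam H →
    (∀ f ∈ L, f.1.2 = e.1.2 → σ f ≤ σ e) ∨ (∀ f ∈ L, f.1.1 = e.1.1 → σ f ≤ σ e) := by
  induction L with
  | nil => intro H _ _ _ e he; simp at he
  | cons e0 L ih =>
    intro H hH hp hsub e he hrun
    rw [List.pairwise_cons] at hp
    rcases List.mem_cons.1 he with rfl | he'
    · -- `e = e0`
      have hnot : ¬ Admissible (H.erase e) := by
        intro hadm
        have h1 : (e :: L).foldl exam H ⊆ H.erase e := by
          rw [List.foldl_cons]
          refine (run_subset L _).trans ?_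
          rw [exam, if_pos hadm]
        exact (notMem_erase e H) (h1 hrun)
      by_contra hcon
      push Not at hcon
      obtain ⟨⟨f, hf, hf2, hfs⟩, ⟨g, hg, hg1, hgs⟩⟩ := hcon
      have hfH : f ∈ H.erase e := by
        rw [mem_erase]
        exact ⟨fun h => by rw [h] at hfs; exact lt_irrefl _ hfs, hsub f hf⟩
      have hgH : g ∈ H.erase e := by
        rw [mem_erase]
        exact ⟨fun h => by rw [h] at hgs; exact lt_irrefl _ hgs, hsub g hg⟩
      apply hnot
      constructor
      · refine le_trans (card_le_card ?_) hH.1
        intro v hv
        simp only [initials, mem_filter, mem_univ, true_and] at hv ⊢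
        intro e' he'
        by_cases h : e' = e
        · rw [h, ← hf2]
          exact hv f hfH
        · exact hv e' (mem_erase.2 ⟨h, he'⟩)
      · refine le_trans (card_le_card ?_) hH.2
        intro v hv
        simp only [terminals, mem_filter, mem_univ, true_and] at hv ⊢
        intro e' he'
        by_cases h : e' = e
        · rw [h, ← hg1]
          exact hv g hgH
        · exact hv e' (mem_erase.2 ⟨h, he'⟩)
    · -- `e ∈ L`
      have hsub' : ∀ f ∈ L, f ∈ exam H e0 := by
        intro f hf
        unfold exam
        split_ifs
        · rw [mem_erase]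
          exact ⟨fun h => by have := hp.1 f hf; rw [h] at this; exact lt_irrefl _ this,
            hsub f (List.mem_cons_of_mem _ hf)⟩
        · exact hsub f (List.mem_cons_of_mem _ hf)
      have h0 : σ e0 ≤ σ e := (hp.1 e he').le
      rcases ih (exam H e0) (exam_admissible hH e0) hp.2 hsub' e he' hrun with h | h
      · left
        intro f hf hf2
        rcases List.mem_cons.1 hf with rfl | hf'
        · exact h0
        · exact h f hf' hf2
      · right
        intro f hf hf2
        rcases List.mem_cons.1 hf with rfl | hf'
        · exact h0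
        · exact h f hf' hf2

/-- An edge is a candidate if it is the last in-edge of its head or the last out-edge of its
tail. -/
def Cand (σ : Order n) (e : Edge n) : Prop :=
  (∀ f : Edge n, f.1.2 = e.1.2 → σ f ≤ σ e) ∨ (∀ f : Edge n, f.1.1 = e.1.1 → σ f ≤ σ e)

lemma full_admissible : Admissible (univ : Finset (Edge n)) := by
  constructor
  · rw [card_le_one]
    intro a ha b hb
    simp only [initials, mem_filter, mem_univ, true_and] at ha hb
    by_contra hab
    rcases lt_or_gt_of_ne hab with h | h
    · exact hb ⟨(a, b), h⟩ trivial rfl
    · exact ha ⟨(b, a), h⟩ trivial rfl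
  · rw [card_le_one]
    intro a ha b hb
    simp only [terminals, mem_filter, mem_univ, true_and] at ha hb
    by_contra hab
    rcases lt_or_gt_of_ne hab with h | h
    · exact ha ⟨(a, b), h⟩ trivial rfl
    · exact hb ⟨(b, a), h⟩ trivial rfl

lemma output_cand (σ : Order n) (e : Edge n) (he : e ∈ output σ) : Cand σ e := by
  have hmem : ∀ f : Edge n, f ∈ List.ofFn fun i => σ.symm i := by
    intro f
    rw [List.mem_ofFn]
    exact ⟨σ f, by simp⟩
  have hp : (List.ofFn fun i => σ.symm i).Pairwise (fun e f => σ e < σ f) := by
    rw [List.pairwise_ofFn]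
    intro i j hij
    simpa using hij
  rcases run_cand σ _ univ full_admissible hp (fun e _ => mem_univ e) e (hmem e) he with h | h
  · exact Or.inl fun f hf => h f (hmem f) hf
  · exact Or.inr fun f hf => h f (hmem f) hf

lemma output_admissible (σ : Order n) : Admissible (output σ) :=
  run_admissible _ full_admissible

/-- Every vertex other than the first has an incoming edge in the output. -/
lemma output_in (σ : Order n) (hn : 0 < n) (v : Fin n) (hv : v ≠ ⟨0, hn⟩) :
    ∃ (a : Fin n) (h : a < v), (⟨(a, v), h⟩ : Edge n) ∈ output σ := by
  have h1 := (output_admissible σ).1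
  rw [card_le_one] at h1
  have h0 : (⟨0, hn⟩ : Fin n) ∈ initials (output σ) := by
    simp only [initials, mem_filter, mem_univ, true_and]
    intro e _ he
    have := e.2
    rw [he] at this
    exact absurd this (by simp [Fin.lt_def])
  by_contra hcon
  push Not at hcon
  apply hv
  refine h1 v ?_ _ h0
  simp only [initials, mem_filter, mem_univ, true_and]
  intro e he hev
  subst hev
  exact hcon e.1.1 e.2 he

/-- There is a path in the output from the first vertex to every vertex. -/
lemma output_path (σ : Order n) (hn : 0 < n) : ∀ (s : ℕ) (hs : s < n),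
    ∃ (k : ℕ) (v : ℕ → Fin n), v 0 = ⟨0, hn⟩ ∧ v k = ⟨s, hs⟩ ∧
      ∀ i < k, ∃ h : v i < v (i + 1), (⟨(v i, v (i + 1)), h⟩ : Edge n) ∈ output σ := by
  intro s
  induction s using Nat.strong_induction_on with
  | _ s ih =>
    intro hs
    by_cases h0 : s = 0
    · subst h0
      exact ⟨0, fun _ => ⟨0, hn⟩, rfl, rfl, by simp⟩
    · obtain ⟨a, ha, hae⟩ := output_in σ hn ⟨s, hs⟩ (by
        intro h
        exact h0 (by simpa using h))
      obtain ⟨k, v, hv0, hvk, hv⟩ := ih a.1 ha a.2
      refine ⟨k + 1, fun i => if i ≤ k then v i else ⟨s, hs⟩, ?_, ?_, ?_⟩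
      · simp [hv0]
      · simp
      · intro i hi
        by_cases hik : i < k
        · obtain ⟨h, h'⟩ := hv i hik
          have e1 : i ≤ k := hik.le
          have e2 : i + 1 ≤ k := hik
          simp only [e1, e2, if_true]
          exact ⟨h, h'⟩
        · have hik' : i = k := by omega
          subst hik'
          have e2 : ¬ (i + 1 ≤ i) := by omega
          simp only [le_refl, if_true, e2, if_false, hvk]
          exact ⟨ha, hae⟩

end Pool.Agent.V11324.ER
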