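import Mathlib
import Pool.Agent.V11324.EdgeRemoval

/-!
The `(1,1)` edge-removal process: counting part.
-/

open Finset

namespace Pool.Agent.V11324.ER

variable {n : ℕ}

open Classical in
/-- Number of orderings with a property. -/
noncomputable def cnt (n : ℕ) (p : Order n → Prop) : ℝ := ((univ.filter p).card : ℝ)

lemma cnt_eq (p : Order n → Prop) [DecidablePred p] :
    cnt n p = ((univ.filter p).card : ℝ) := by
  unfold cnt
  congr!

lemma cnt_mono {p q : Order n → Prop} (h : ∀ σ, p σ → q σ) : cnt n p ≤ cnt n q := by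
  unfold cnt
  exact_mod_cast card_le_card (fun σ hσ => by
    simp only [mem_filter, mem_univ, true_and] at hσ ⊢
    exact h σ hσ)

lemma cnt_nonneg (p : Order n → Prop) : 0 ≤ cnt n p := by
  unfold cnt; positivity

lemma cnt_or (p q : Order n → Prop) : cnt n (fun σ => p σ ∨ q σ) ≤ cnt n p + cnt n q := by
  classical
  rw [cnt_eq, cnt_eq, cnt_eq]
  have : (univ.filter fun σ => p σ ∨ q σ) = univ.filter p ∪ univ.filter q := by
    ext σ; simp
  have h2 := card_union_le (univ.filter p) (univ.filter q)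
  rw [← this] at h2
  exact_mod_cast h2

lemma cnt_exists {α : Type} (S : Finset α) (p : α → Order n → Prop) :
    cnt n (fun σ => ∃ a ∈ S, p a σ) ≤ ∑ a ∈ S, cnt n (p a) := by
  classical
  simp_rw [cnt_eq]
  have : (univ.filter fun σ => ∃ a ∈ S, p a σ) = S.biUnion fun a => univ.filter (p a) := by
    ext σ; simp
  rw [this]
  exact_mod_cast card_biUnion_le

/-- One step: the edge `e` is last in `S`, an event independent of `B` if `B` is invariant under
the swaps of `e` with the elements of `S`. -/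
lemma step (B : Order n → Prop) (S : Finset (Edge n)) (e : Edge n) (he : e ∈ S)
    (hB : ∀ x ∈ S, ∀ σ : Order n, B σ → B ((Equiv.swap e x).trans σ)) :
    cnt n (fun σ => B σ ∧ ∀ f ∈ S, σ f ≤ σ e) * S.card ≤ cnt n B := by
  classical
  let A : Edge n → Finset (Order n) := fun x => univ.filter fun σ => B σ ∧ ∀ f ∈ S, σ f ≤ σ x
  have hcard : ∀ x ∈ S, (A e).card ≤ (A x).card := by
    intro x hx
    refine card_le_card_of_injOn (fun σ => (Equiv.swap e x).trans σ) ?_ ?_
    · intro σ hσ
      simp only [A, coe_filter, mem_univ, true_and, Set.mem_ofPred_eq] at hσ ⊢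
      refine ⟨hB x hx σ hσ.1, fun f hf => ?_⟩
      simp only [Equiv.trans_apply, Equiv.swap_apply_right]
      apply hσ.2
      by_cases h1 : f = e
      · rw [h1, Equiv.swap_apply_left]; exact hx
      · by_cases h2 : f = x
        · rw [h2, Equiv.swap_apply_right]; exact he
        · rw [Equiv.swap_apply_of_ne_of_ne h1 h2]; exact hf
    · intro σ _ τ _ h
      have h2 : (Equiv.swap e x).trans σ = (Equiv.swap e x).trans τ := h
      ext f
      have h3 := congrArg (fun ρ : Order n => ρ (Equiv.swap e x f)) h2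
      simp only [Equiv.trans_apply, Equiv.swap_apply_self] at h3
      rw [h3]
  have hdisj : (S : Set (Edge n)).PairwiseDisjoint A := by
    intro x hx y hy hxy
    rw [Function.onFun, disjoint_left]
    intro σ h1 h2
    simp only [A, mem_filter, mem_univ, true_and] at h1 h2
    exact hxy (σ.injective (le_antisymm (h2.2 x hx) (h1.2 y hy)))
  have hsub : S.biUnion A ⊆ univ.filter B := by
    intro σ hσ
    simp only [A, mem_biUnion, mem_filter, mem_univ, true_and] at hσ ⊢
    obtain ⟨x, _, h, _⟩ := hσ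
    exact h
  have h1 : S.card * (A e).card ≤ (univ.filter B).card := by
    calc S.card * (A e).card = ∑ _x ∈ S, (A e).card := by simp
      _ ≤ ∑ x ∈ S, (A x).card := sum_le_sum hcard
      _ = (S.biUnion A).card := (card_biUnion hdisj).symm
      _ ≤ _ := card_le_card hsub
  rw [cnt_eq, cnt_eq]
  have h2 : ((S.card : ℝ) * ((A e).card : ℝ)) ≤ ((univ.filter B).card : ℝ) := by exact_mod_cast h1
  simp only [A] at h2
  rw [mul_comm]
  exact h2

/-- Weak version of candidate edges, relative to a threshold `m`. -/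
def CandM (m : ℕ) (σ : Order n) (e : Edge n) : Prop :=
  (∀ f : Edge n, f.1.2 = e.1.2 → σ f ≤ σ e) ∨
    (∀ f : Edge n, f.1.1 = e.1.1 → m < (f.1.2 : ℕ) → σ f ≤ σ e)

lemma Cand.toM {m : ℕ} {σ : Order n} {e : Edge n} (h : Cand σ e) : CandM m σ e := by
  rcases h with h | h
  · exact Or.inl h
  · exact Or.inr fun f hf _ => h f hf

/-- Good paths, as decreasing lists of vertices. -/
def GP (m : ℕ) (σ : Order n) : List (Fin n) → Prop
  | [] => True
  | [_] => True
  | (v :: r :: l) => (∃ h : r < v, CandM m σ ⟨(r, v), h⟩) ∧ GP m σ (r :: l)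

/-- `GP m σ (r :: l)` depends only on the values of `σ` on the edges `(a,b)` with `b ≤ r` or
with `a < r` and `m < b`. -/
lemma GP_congr (m : ℕ) (l : List (Fin n)) : ∀ (r : Fin n) (σ τ : Order n),
    (∀ f : Edge n, (f.1.2 ≤ r ∨ (f.1.1 < r ∧ m < (f.1.2 : ℕ))) → σ f = τ f) →
    GP m σ (r :: l) → GP m τ (r :: l) := by
  induction l with
  | nil => intro r σ τ _ _; trivial
  | cons a l ih =>
    intro r σ τ h hg
    obtain ⟨⟨har, hc⟩, hg'⟩ := hg
    refine ⟨⟨har, ?_⟩, ih a σ τ ?_ hg'⟩
    · have he : σ ⟨(a, r), har⟩ = τ ⟨(a, r), har⟩ := h _ (Or.inl le_rfl)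
      rcases hc with hc | hc
      · left
        intro f hf
        rw [← he, ← h f (Or.inl hf.le)]
        exact hc f hf
      · right
        intro f hf hf2
        have hfa : f.1.1 < r := by
          have : f.1.1 = a := hf
          rw [this]; exact har
        rw [← he, ← h f (Or.inr ⟨hfa, hf2⟩)]
        exact hc f hf hf2
    · intro f hf
      apply h f
      rcases hf with hf | ⟨hf1, hf2⟩
      · exact Or.inl (hf.trans har.le)
      · exact Or.inr ⟨hf1.trans har, hf2⟩

/-- The main counting step. -/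
lemma GP_step {m : ℕ} (hm : 2 * m ≤ n) (v r : Fin n) (hv : (v : ℕ) ≤ m) (l : List (Fin n)) :
    cnt n (fun σ => GP m σ (v :: r :: l)) ≤ 2 / (v : ℝ) * cnt n (fun σ => GP m σ (r :: l)) := by
  classical
  by_cases hrv : r < v
  swap
  · have : cnt n (fun σ => GP m σ (v :: r :: l)) = 0 := by
      unfold cnt
      rw [Nat.cast_eq_zero, card_eq_zero, filter_eq_empty_iff]
      intro σ _ h
      exact hrv h.1.1
    rw [this]
    exact mul_nonneg (by positivity) (cnt_nonneg _)
  set e : Edge n := ⟨(r, v), hrv⟩ with he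
  set B : Order n → Prop := fun σ => GP m σ (r :: l) with hBdef
  set S0 : Finset (Edge n) := univ.filter fun f => f.1.2 = v with hS0
  set S1 : Finset (Edge n) := insert e (univ.filter fun f => f.1.1 = r ∧ m < (f.1.2 : ℕ)) with hS1
  have hvpos : 0 < (v : ℕ) := lt_of_le_of_lt (Nat.zero_le _) hrv
  -- swaps outside the dependence set
  have hswap : ∀ x : Edge n, ¬ (x.1.2 ≤ r ∨ (x.1.1 < r ∧ m < (x.1.2 : ℕ))) →
      ∀ σ : Order n, B σ → B ((Equiv.swap e x).trans σ) := by
    intro x hx σ hσ
    refine GP_congr m l r σ _ ?_ hσ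
    intro f hf
    have h1 : f ≠ e := by
      rintro rfl
      rcases hf with hf | ⟨hf1, -⟩
      · exact absurd hf (not_le.2 hrv)
      · exact lt_irrefl _ hf1
    have h2 : f ≠ x := by
      rintro rfl
      exact hx hf
    simp only [Equiv.trans_apply]
    rw [Equiv.swap_apply_of_ne_of_ne h1 h2]
  have hx0 : ∀ x ∈ S0, ¬ (x.1.2 ≤ r ∨ (x.1.1 < r ∧ m < (x.1.2 : ℕ))) := by
    intro x hx
    simp only [hS0, mem_filter, mem_univ, true_and] at hx
    rw [hx]
    rintro (h | ⟨-, h⟩)
    · exact absurd h (not_le.2 hrv)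
    · omega
  have hx1 : ∀ x ∈ S1, ¬ (x.1.2 ≤ r ∨ (x.1.1 < r ∧ m < (x.1.2 : ℕ))) := by
    intro x hx
    rw [hS1, mem_insert] at hx
    rcases hx with rfl | hx
    · rintro (h | ⟨h, -⟩)
      · exact absurd h (not_le.2 hrv)
      · exact lt_irrefl _ h
    · simp only [mem_filter, mem_univ, true_and] at hx
      rintro (h | ⟨h, -⟩)
      · have h1 := hx.2
        have h2 : (x.1.2 : ℕ) ≤ r := h
        have h3 : (r : ℕ) < v := hrv
        omega
      · rw [hx.1] at h
        exact lt_irrefl _ h
  have c0 : (v : ℕ) ≤ S0.card := by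
    have : (univ.filter fun x : Fin n => x < v).card ≤ S0.card := by
      refine card_le_card_of_surjOn (fun f => f.1.1) ?_
      intro x hx
      simp only [coe_filter, mem_univ, true_and, Set.mem_ofPred_eq] at hx
      refine ⟨⟨(x, v), hx⟩, ?_, rfl⟩
      simp [hS0]
    rwa [show (univ.filter fun x : Fin n => x < v) = Finset.Iio v by ext; simp, Fin.card_Iio]
      at this
  have c1 : (v : ℕ) ≤ S1.card := by
    have h1 : e ∉ (univ.filter fun f : Edge n => f.1.1 = r ∧ m < (f.1.2 : ℕ)) := by
      simp only [mem_filter, mem_univ, true_and, not_lt, he]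
      exact hv
    rw [hS1, card_insert_of_notMem h1]
    have h2 : (univ.filter fun y : Fin n => m < (y : ℕ)).card ≤
        (univ.filter fun f : Edge n => f.1.1 = r ∧ m < (f.1.2 : ℕ)).card := by
      refine card_le_card_of_surjOn (fun f => f.1.2) ?_
      intro y hy
      simp only [coe_filter, mem_univ, true_and, Set.mem_ofPred_eq] at hy
      have hry : r < y := by
        rw [Fin.lt_def]
        have : (r : ℕ) < v := hrv
        omega
      refine ⟨⟨(r, y), hry⟩, ?_, rfl⟩
      simp [hy]
    have h3 : n - 1 - m ≤ (univ.filter fun y : Fin n => m < (y : ℕ)).card := by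
      have h4 := card_filter_add_card_filter_not (s := (univ : Finset (Fin n)))
        (fun y : Fin n => m < (y : ℕ))
      have h5 : (univ.filter fun y : Fin n => ¬ m < (y : ℕ)).card ≤ m + 1 := by
        have : (univ.filter fun y : Fin n => ¬ m < (y : ℕ)).card ≤ (range (m + 1)).card := by
          refine card_le_card_of_injOn (fun y => (y : ℕ)) ?_ Fin.val_injective.injOn
          intro y hy
          simp only [coe_filter, mem_univ, true_and, Set.mem_ofPred_eq, coe_range, Set.mem_Iio,
            not_lt] at hy ⊢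
          omega
        rwa [card_range] at this
      rw [card_univ, Fintype.card_fin] at h4
      omega
    omega
  have key : ∀ S : Finset (Edge n), e ∈ S → (v : ℕ) ≤ S.card →
      (∀ x ∈ S, ¬ (x.1.2 ≤ r ∨ (x.1.1 < r ∧ m < (x.1.2 : ℕ)))) →
      cnt n (fun σ => B σ ∧ ∀ f ∈ S, σ f ≤ σ e) ≤ 1 / (v : ℝ) * cnt n B := by
    intro S heS hcS hxS
    have h1 := step B S e heS fun x hx => hswap x (hxS x hx)
    have h2 : cnt n (fun σ => B σ ∧ ∀ f ∈ S, σ f ≤ σ e) * v ≤ cnt n B := by
      refine le_trans ?_ h1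
      have : (v : ℝ) ≤ S.card := by exact_mod_cast hcS
      exact mul_le_mul_of_nonneg_left this (cnt_nonneg _)
    have hv' : (0 : ℝ) < (v : ℝ) := by exact_mod_cast hvpos
    rw [one_div, ← div_eq_inv_mul, le_div_iff₀ hv']
    exact h2
  have k0 := key S0 (by simp [hS0, he]) c0 hx0
  have k1 := key S1 (by simp [hS1]) c1 hx1
  have hle : cnt n (fun σ => GP m σ (v :: r :: l)) ≤
      cnt n (fun σ => (B σ ∧ ∀ f ∈ S0, σ f ≤ σ e) ∨ (B σ ∧ ∀ f ∈ S1, σ f ≤ σ e)) := by
    refine cnt_mono fun σ hσ => ?_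
    obtain ⟨⟨h, hc⟩, hg⟩ := hσ
    rcases hc with hc | hc
    · left
      refine ⟨hg, fun f hf => hc f ?_⟩
      simpa [hS0] using hf
    · right
      refine ⟨hg, fun f hf => ?_⟩
      rw [hS1, mem_insert] at hf
      rcases hf with rfl | hf
      · exact le_rfl
      · simp only [mem_filter, mem_univ, true_and] at hf
        exact hc f hf.1 hf.2
  have hsum := cnt_or (n := n) (fun σ => B σ ∧ ∀ f ∈ S0, σ f ≤ σ e)
    (fun σ => B σ ∧ ∀ f ∈ S1, σ f ≤ σ e)
  have : 2 / (v : ℝ) * cnt n B = 1 / (v : ℝ) * cnt n B + 1 / (v : ℝ) * cnt n B := by ring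
  rw [this]
  linarith

open Classical in
/-- Decreasing vertex lists with `k` steps from `s` down to a vertex of `X`. -/
noncomputable def paths (X : Finset (Fin n)) : ℕ → Fin n → Finset (List (Fin n))
  | 0, s => if s ∈ X then {[s]} else ∅
  | (k + 1), s => (univ.filter fun r => r < s).biUnion fun r => (paths X k r).image (List.cons s)

lemma paths_head (X : Finset (Fin n)) : ∀ (k : ℕ) (s : Fin n), ∀ l ∈ paths X k s,
    ∃ l', l = s :: l' := by
  classical
  intro k
  cases k with
  | zero =>
    intro s l hl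
    unfold paths at hl
    split_ifs at hl with h
    · exact ⟨[], by simpa using hl⟩
    · simp at hl
  | succ k =>
    intro s l hl
    unfold paths at hl
    simp only [mem_biUnion, mem_image] at hl
    obtain ⟨r, _, l', _, rfl⟩ := hl
    exact ⟨l', rfl⟩

lemma sum_biUnion_le_of_nonneg' {α β : Type} [DecidableEq β] (S : Finset α) (t : α → Finset β)
    (f : β → ℝ) (hf : ∀ b, 0 ≤ f b) : ∑ b ∈ S.biUnion t, f b ≤ ∑ a ∈ S, ∑ b ∈ t a, f b := by
  classical
  induction S using Finset.induction_on with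
  | empty => simp
  | insert a S ha ih =>
    rw [biUnion_insert, sum_insert ha]
    have h1 : ∑ b ∈ t a ∪ S.biUnion t, f b ≤ ∑ b ∈ t a, f b + ∑ b ∈ S.biUnion t, f b := by
      rw [← sum_union_inter]
      have : 0 ≤ ∑ b ∈ t a ∩ S.biUnion t, f b := sum_nonneg fun b _ => hf b
      linarith
    linarith

/-- Sum over paths of the number of orderings for which the path is good. -/
noncomputable def RR (m : ℕ) (X : Finset (Fin n)) (k : ℕ) (s : Fin n) : ℝ :=
  ∑ l ∈ paths X k s, cnt n (fun σ => GP m σ l)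

lemma RR_zero (m : ℕ) (X : Finset (Fin n)) (s : Fin n) :
    RR m X 0 s = if s ∈ X then (Fintype.card (Order n) : ℝ) else 0 := by
  classical
  unfold RR paths
  split_ifs with h
  · rw [sum_singleton]
    unfold cnt GP
    simp
  · simp

lemma RR_succ {m : ℕ} (hm : 2 * m ≤ n) (X : Finset (Fin n)) (k : ℕ) (s : Fin n)
    (hs : (s : ℕ) ≤ m) :
    RR m X (k + 1) s ≤ 2 / (s : ℝ) * ∑ r ∈ univ.filter (fun r => r < s), RR m X k r := by
  classical
  unfold RR
  rw [paths]
  calc ∑ l ∈ (univ.filter fun r => r < s).biUnion (fun r => (paths X k r).image (List.cons s)),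
        cnt n (fun σ => GP m σ l)
      ≤ ∑ r ∈ univ.filter (fun r => r < s), ∑ l ∈ (paths X k r).image (List.cons s),
          cnt n (fun σ => GP m σ l) := by
        exact sum_biUnion_le_of_nonneg' _ _ _ fun l => cnt_nonneg _
    _ = ∑ r ∈ univ.filter (fun r => r < s), ∑ l ∈ paths X k r, cnt n (fun σ => GP m σ (s :: l)) := by
        refine sum_congr rfl fun r _ => ?_
        rw [sum_image]
        intro a _ b _ h
        exact (List.cons.inj h).2
    _ ≤ ∑ r ∈ univ.filter (fun r => r < s), ∑ l ∈ paths X k r,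
          2 / (s : ℝ) * cnt n (fun σ => GP m σ l) := by
        refine sum_le_sum fun r _ => sum_le_sum fun l hl => ?_
        obtain ⟨l', rfl⟩ := paths_head X k r l hl
        exact GP_step hm s r hs l'
    _ = _ := by
        rw [mul_sum]
        refine sum_congr rfl fun r _ => ?_
        rw [mul_sum]

/-- Supersolution bound. -/
lemma RR_le {m : ℕ} (hm : 2 * m ≤ n) (X : Finset (Fin n)) (t : ℝ) (ht : 0 < t) (φ : ℕ → ℝ)
    (h0 : ∀ s, 0 ≤ φ s) (h1 : ∀ s ∈ X, 1 ≤ φ (s : ℕ))
    (h2 : ∀ s : ℕ, 1 ≤ s → t * (2 / (s : ℝ)) * ∑ r ∈ range s, φ r ≤ φ s) :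
    ∀ (k : ℕ) (s : Fin n), (s : ℕ) ≤ m →
      t ^ k * RR m X k s ≤ Fintype.card (Order n) * φ s := by
  classical
  intro k
  induction k with
  | zero =>
    intro s hs
    rw [RR_zero, pow_zero, one_mul]
    split_ifs with h
    · have := h1 s h
      have hc : (0 : ℝ) ≤ Fintype.card (Order n) := by positivity
      nlinarith
    · have := h0 s
      positivity
  | succ k ih =>
    intro s hs
    have hsum : ∑ r ∈ univ.filter (fun r : Fin n => r < s), φ (r : ℕ) = ∑ r ∈ range (s : ℕ), φ r := by
      refine sum_bij (fun r _ => (r : ℕ)) ?_ ?_ ?_ ?_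
      · intro r hr
        simp only [mem_filter, mem_univ, true_and] at hr
        simpa using hr
      · intro a _ b _ h
        exact Fin.ext h
      · intro b hb
        have hb' : b < s := by simpa using hb
        exact ⟨⟨b, hb'.trans s.2⟩, mem_filter.2 ⟨mem_univ _, hb'⟩, rfl⟩
      · intro a _
        rfl
    rcases Nat.eq_zero_or_pos (s : ℕ) with hs0 | hs0
    · have hz : RR m X (k + 1) s ≤ 0 := by
        refine (RR_succ hm X k s hs).trans ?_
        rw [hs0]
        simp
      have : t ^ (k + 1) * RR m X (k + 1) s ≤ 0 :=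
        mul_nonpos_of_nonneg_of_nonpos (by positivity) hz
      have h3 := h0 s
      have : (0 : ℝ) ≤ Fintype.card (Order n) * φ s := by positivity
      linarith
    · have hspos : (0 : ℝ) < (s : ℕ) := by exact_mod_cast hs0
      calc t ^ (k + 1) * RR m X (k + 1) s
          ≤ t ^ (k + 1) * (2 / (s : ℝ) * ∑ r ∈ univ.filter (fun r => r < s), RR m X k r) :=
            mul_le_mul_of_nonneg_left (RR_succ hm X k s hs) (by positivity)
        _ = t * (2 / (s : ℝ)) * ∑ r ∈ univ.filter (fun r => r < s), t ^ k * RR m X k r := by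
            rw [← mul_sum]
            ring
        _ ≤ t * (2 / (s : ℝ)) * ∑ r ∈ univ.filter (fun r => r < s),
              Fintype.card (Order n) * φ (r : ℕ) := by
            refine mul_le_mul_of_nonneg_left (sum_le_sum fun r hr => ?_) (by positivity)
            simp only [mem_filter, mem_univ, true_and] at hr
            have : (r : ℕ) < s := hr
            exact ih r (by omega)
        _ = Fintype.card (Order n) * (t * (2 / (s : ℝ)) * ∑ r ∈ range (s : ℕ), φ r) := by
            rw [← mul_sum, hsum]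
            ring
        _ ≤ Fintype.card (Order n) * φ s :=
            mul_le_mul_of_nonneg_left (h2 s hs0) (by positivity)

/-- The decreasing list of the first `k+1` vertices of a path. -/
def toL (v : ℕ → Fin n) : ℕ → List (Fin n)
  | 0 => [v 0]
  | (k + 1) => v (k + 1) :: toL v k

lemma toL_head (v : ℕ → Fin n) (k : ℕ) : ∃ l, toL v k = v k :: l := by
  cases k with
  | zero => exact ⟨[], rfl⟩
  | succ k => exact ⟨toL v k, rfl⟩

lemma toL_mem (X : Finset (Fin n)) (v : ℕ → Fin n) (h0 : v 0 ∈ X) (k : ℕ)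
    (hv : ∀ i < k, v i < v (i + 1)) : toL v k ∈ paths X k (v k) := by
  classical
  induction k with
  | zero => simp [toL, paths, h0]
  | succ k ih =>
    rw [toL, paths, mem_biUnion]
    refine ⟨v k, by simpa using hv k (Nat.lt_succ_self k), ?_⟩
    exact mem_image_of_mem _ (ih fun i hi => hv i (by omega))

lemma toL_GP (m : ℕ) (σ : Order n) (v : ℕ → Fin n) (k : ℕ)
    (hv : ∀ i < k, ∃ h : v i < v (i + 1), Cand σ ⟨(v i, v (i + 1)), h⟩) :
    GP m σ (toL v k) := by
  induction k with
  | zero => trivial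
  | succ k ih =>
    rw [toL]
    obtain ⟨l, hl⟩ := toL_head v k
    have ih' := ih fun i hi => hv i (by omega)
    rw [hl] at ih' ⊢
    obtain ⟨h, hc⟩ := hv k (Nat.lt_succ_self k)
    exact ⟨⟨h, hc.toM⟩, ih'⟩

/-- Number of orderings having a candidate path with `k` steps from `X` to `s`. -/
lemma cnt_path_le {m : ℕ} (X : Finset (Fin n)) (k : ℕ) (s : Fin n) :
    cnt n (fun σ => ∃ v : ℕ → Fin n, v 0 ∈ X ∧ v k = s ∧
      ∀ i < k, ∃ h : v i < v (i + 1), Cand σ ⟨(v i, v (i + 1)), h⟩) ≤ RR m X k s := by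
  classical
  refine le_trans (cnt_mono ?_) (cnt_exists (paths X k s) fun l σ => GP m σ l)
  rintro σ ⟨v, hv0, rfl, hv⟩
  exact ⟨toL v k, toL_mem X v hv0 k fun i hi => (hv i hi).1, toL_GP m σ v k hv⟩

end Pool.Agent.V11324.ER
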