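import Mathlib

set_option autoImplicit false

/-! Partial sums of i.i.d. uniform `{-1,0,1}` variables are unbounded in both directions. -/

namespace Pool.Agent.V11324.Osc

open MeasureTheory ProbabilityTheory Filter Topology
open scoped ENNReal

variable {Ω : Type*} [MeasurableSpace Ω] {P : Measure Ω} [IsProbabilityMeasure P]

theorem ae_values (X : Ω → ℤ) (hm : Measurable X)
    (hu : ∀ k : ℤ, k = -1 ∨ k = 0 ∨ k = 1 → P {ω | X ω = k} = 1 / 3) :
    ∀ᵐ ω ∂P, X ω = -1 ∨ X ω = 0 ∨ X ω = 1 := by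
  have hms : ∀ k : ℤ, MeasurableSet {ω | X ω = k} := fun k => hm (measurableSet_singleton k)
  have h1 : P ({ω | X ω = -1} ∪ {ω | X ω = 0} ∪ {ω | X ω = 1}) = 1 := by
    rw [measure_union (by
        rw [Set.disjoint_left]; rintro ω (h | h) h' <;> simp only [Set.mem_ofPred_eq] at h h' <;>
          omega) (hms 1),
      measure_union (by
        rw [Set.disjoint_left]; intro ω h h'; simp only [Set.mem_ofPred_eq] at h h'; omega) (hms 0),
      hu _ (Or.inl rfl), hu _ (Or.inr (Or.inl rfl)), hu _ (Or.inr (Or.inr rfl))]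
    rw [ENNReal.div_add_div_same, ENNReal.div_add_div_same]
    norm_num
    exact ENNReal.div_self (by norm_num) (by norm_num)
  have h2 : ∀ᵐ ω ∂P, ω ∈ ({ω | X ω = -1} ∪ {ω | X ω = 0} ∪ {ω | X ω = 1}) := by
    rw [← prob_compl_eq_zero_iff (((hms _).union (hms _)).union (hms _))] at h1
    exact h1
  filter_upwards [h2] with ω hω
  rcases hω with (h | h) | h
  · exact Or.inl h
  · exact Or.inr (Or.inl h)
  · exact Or.inr (Or.inr h)

theorem integral_zero (X : Ω → ℤ) (hm : Measurable X)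
    (hu : ∀ k : ℤ, k = -1 ∨ k = 0 ∨ k = 1 → P {ω | X ω = k} = 1 / 3) :
    ∫ ω, (X ω : ℝ) ∂P = 0 := by
  have hms : ∀ k : ℤ, MeasurableSet {ω | X ω = k} := fun k => hm (measurableSet_singleton k)
  have h : (fun ω => (X ω : ℝ)) =ᵐ[P] fun ω => ({ω | X ω = 1}.indicator (fun _ => (1 : ℝ)) ω) -
      ({ω | X ω = -1}.indicator (fun _ => (1 : ℝ)) ω) := by
    filter_upwards [ae_values X hm hu] with ω hω
    rcases hω with h | h | h <;> simp [Set.indicator, h]
  rw [integral_congr_ae h, integral_sub, integral_indicator_const _ (hms 1),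
    integral_indicator_const _ (hms (-1))]
  · simp [Measure.real, hu (-1) (Or.inl rfl), hu 1 (Or.inr (Or.inr rfl))]
  · exact (integrable_const (1 : ℝ)).indicator (hms 1)
  · exact (integrable_const (1 : ℝ)).indicator (hms (-1))

theorem unbounded (X : ℕ → Ω → ℤ) (hm : ∀ n, Measurable (X n)) (hi : iIndepFun X P)
    (hu : ∀ n, ∀ k : ℤ, k = -1 ∨ k = 0 ∨ k = 1 → P {ω | X n ω = k} = 1 / 3) :
    ∀ᵐ ω ∂P, (∀ M : ℤ, ∃ n, M ≤ ∑ k ∈ Finset.range (n + 1), X k ω) ∧
      (∀ M : ℤ, ∃ n, ∑ k ∈ Finset.range (n + 1), X k ω ≤ M) := by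
  set Y : ℕ → Ω → ℝ := fun n ω => (X n ω : ℝ) with hY
  have hYm : ∀ n, Measurable (Y n) := fun n => measurable_from_top.comp (hm n)
  have hYs : ∀ n, StronglyMeasurable (Y n) := fun n => (hYm n).stronglyMeasurable
  have hYi : iIndepFun Y P := hi.comp (fun _ (z : ℤ) => (z : ℝ)) fun _ => measurable_from_top
  have hval : ∀ᵐ ω ∂P, ∀ n, X n ω = -1 ∨ X n ω = 0 ∨ X n ω = 1 := by
    rw [ae_all_iff]; exact fun n => ae_values (X n) (hm n) (hu n)
  have hbd : ∀ n, ∀ᵐ ω ∂P, ‖Y n ω‖ ≤ 1 := by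
    intro n
    filter_upwards [hval] with ω hω
    rcases hω n with h | h | h <;> simp [hY, h]
  have hint : ∀ n, Integrable (Y n) P := fun n =>
    Integrable.of_bound (hYs n).aestronglyMeasurable 1 (hbd n)
  have hE : ∀ n, ∫ ω, Y n ω ∂P = 0 := fun n => integral_zero (X n) (hm n) (hu n)
  let ℱ := Filtration.natural Y hYs
  let f : ℕ → Ω → ℝ := fun n ω => ∑ k ∈ Finset.range (n + 1), Y k ω
  have hadY : ∀ n k, k ≤ n → StronglyMeasurable[ℱ n] (Y k) := by
    intro n k hk
    exact (Filtration.stronglyAdapted_natural hYs k).mono (ℱ.mono hk)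
  have had : StronglyAdapted ℱ f := by
    intro n
    refine Finset.stronglyMeasurable_fun_sum _ fun k hk => hadY n k ?_
    have := Finset.mem_range.1 hk; omega
  have hfint : ∀ n, Integrable (f n) P := fun n => integrable_finsetSum _ fun k _ => hint k
  have hmart : Martingale f ℱ P := by
    refine martingale_nat had hfint fun n => ?_
    have e : f (n + 1) = f n + Y (n + 1) := by
      funext ω
      simp only [f, Pi.add_apply]
      rw [Finset.sum_range_succ]
    rw [e]
    have h1 : P[f n + Y (n + 1)|ℱ n] =ᵐ[P] P[f n|ℱ n] + P[Y (n + 1)|ℱ n] :=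
      condExp_add (hfint n) (hint (n + 1)) (ℱ n)
    have h2 : P[f n|ℱ n] = f n := condExp_of_stronglyMeasurable (ℱ.le n) (had n) (hfint n)
    have h3 : P[Y (n + 1)|ℱ n] =ᵐ[P] fun _ => P[Y (n + 1)] :=
      hYi.condExp_natural_ae_eq_of_lt hYs (Nat.lt_succ_self n)
    filter_upwards [h1, h3] with ω h1 h3
    rw [h1, Pi.add_apply, h2, h3, hE, add_zero]
  have hstep : ∀ᵐ ω ∂P, ∀ i, |f (i + 1) ω - f i ω| ≤ (1 : NNReal) := by
    rw [ae_all_iff]
    intro i
    filter_upwards [hbd (i + 1)] with ω hω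
    have : f (i + 1) ω - f i ω = Y (i + 1) ω := by
      simp only [f]; rw [Finset.sum_range_succ]; ring
    rw [this]; simpa using hω
  have hA := hmart.submartingale.bddAbove_iff_exists_tendsto hstep
  have hB := hmart.bddAbove_range_iff_bddBelow_range hstep
  -- infinitely many steps equal to one
  have hio : ∀ᵐ ω ∂P, ∃ᶠ n in atTop, X n ω = 1 := by
    have hset : ∀ n, MeasurableSet {ω | X n ω = 1} := fun n => hm n (measurableSet_singleton 1)
    have hind : iIndepSet (fun n => {ω | X n ω = 1}) P := by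
      rw [iIndepSet_iff_meas_biInter hset]
      intro s
      exact hi.meas_biInter fun i _ => ⟨{1}, measurableSet_singleton 1, rfl⟩
    have h1 := measure_limsup_eq_one hset hind (by
      simp only [hu _ 1 (Or.inr (Or.inr rfl))]
      exact ENNReal.tsum_const_eq_top_of_ne_zero (by simp))
    have h2 : ∀ᵐ ω ∂P, ω ∈ limsup (fun n => {ω | X n ω = 1}) atTop := by
      rw [← prob_compl_eq_zero_iff (MeasurableSet.measurableSet_limsup hset)] at h1
      exact h1
    filter_upwards [h2] with ω hω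
    rw [mem_limsup_iff_frequently_mem] at hω
    exact hω
  filter_upwards [hA, hB, hio] with ω hA hB hio
  have hnot : ¬ BddAbove (Set.range fun n => f n ω) := by
    intro h
    obtain ⟨c, hc⟩ := hA.1 h
    have h1 : Tendsto (fun n => f (n + 1) ω - f n ω) atTop (𝓝 (c - c)) :=
      ((tendsto_add_atTop_iff_nat 1).2 hc).sub hc
    rw [sub_self] at h1
    have h2 : ∀ᶠ n in atTop, |f (n + 1) ω - f n ω| < 1 := by
      have := (h1.abs).eventually_lt_const (u := (1 : ℝ)) (by simp)
      exact this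
    have h3 : ∀ᶠ n in atTop, X (n + 1) ω ≠ 1 := by
      filter_upwards [h2] with n hn h
      have e : f (n + 1) ω - f n ω = Y (n + 1) ω := by
        simp only [f]; rw [Finset.sum_range_succ]; ring
      rw [e] at hn
      simp [hY, h] at hn
    have h4 : ∀ᶠ n in atTop, X n ω ≠ 1 := by
      rw [eventually_atTop] at h3 ⊢
      obtain ⟨N, hN⟩ := h3
      refine ⟨N + 1, fun n hn => ?_⟩
      obtain ⟨m, rfl⟩ : ∃ m, n = m + 1 := ⟨n - 1, by omega⟩
      exact hN m (by omega)
    exact hio h4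
  have hnot' : ¬ BddBelow (Set.range fun n => f n ω) := fun h => hnot (hB.2 h)
  have hf : ∀ n, f n ω = ((∑ k ∈ Finset.range (n + 1), X k ω : ℤ) : ℝ) := by
    intro n; simp [f, hY]
  constructor
  · intro M
    by_contra hcon
    push Not at hcon
    apply hnot
    refine ⟨(M : ℝ), ?_⟩
    rintro _ ⟨n, rfl⟩
    simp only [hf]
    exact_mod_cast (hcon n).le
  · intro M
    by_contra hcon
    push Not at hcon
    apply hnot'
    refine ⟨(M : ℝ), ?_⟩
    rintro _ ⟨n, rfl⟩
    simp only [hf]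
    exact_mod_cast (hcon n).le

end Pool.Agent.V11324.Osc
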