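import Mathlib

/-!
Independence facts for finite products of Bernoulli measures on `Bool`.
-/

open MeasureTheory ProbabilityTheory Set
open scoped ENNReal

namespace Pool.Agent.V11324

/-- The Bernoulli measure on `Bool` giving mass `q` to `true`. -/
noncomputable def bern (q : ℝ) : Measure Bool :=
  ENNReal.ofReal q • Measure.dirac true + ENNReal.ofReal (1 - q) • Measure.dirac false

lemma bern_prob {q : ℝ} (h0 : 0 ≤ q) (h1 : q ≤ 1) : IsProbabilityMeasure (bern q) := by
  constructor
  simp only [bern, Measure.coe_add, Measure.coe_smul, Pi.add_apply, Pi.smul_apply, measure_univ,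
    smul_eq_mul, mul_one]
  rw [← ENNReal.ofReal_add h0 (by linarith)]
  simp

lemma bern_false {q : ℝ} : bern q {false} = ENNReal.ofReal (1 - q) := by
  simp [bern]

variable {ι : Type} [Fintype ι] [DecidableEq ι]

/-- The product Bernoulli measure. -/
noncomputable def pim (ι : Type) [Fintype ι] (q : ℝ) : Measure (ι → Bool) :=
  Measure.pi fun _ => bern q

lemma pim_prob {q : ℝ} (h0 : 0 ≤ q) (h1 : q ≤ 1) : IsProbabilityMeasure (pim ι q) := by
  have := bern_prob h0 h1
  unfold pim
  infer_instance

lemma pim_box {q : ℝ} (h0 : 0 ≤ q) (h1 : q ≤ 1) (S : Finset ι) :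
    pim ι q {ω | ∀ i ∈ S, ω i = false} = ENNReal.ofReal (1 - q) ^ S.card := by
  have := bern_prob h0 h1
  have : {ω : ι → Bool | ∀ i ∈ S, ω i = false} =
      Set.pi Set.univ (fun i => if i ∈ S then ({false} : Set Bool) else Set.univ) := by
    ext ω
    simp only [Set.mem_ofPred_eq, Set.mem_pi, Set.mem_univ, true_implies]
    refine forall_congr' fun i => ?_
    by_cases hi : i ∈ S <;> simp [hi]
  rw [this, pim, Measure.pi_pi]
  have h2 : ∀ i, bern q (if i ∈ S then ({false} : Set Bool) else Set.univ) =
      if i ∈ S then ENNReal.ofReal (1 - q) else 1 := by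
    intro i
    by_cases hi : i ∈ S
    · simp [hi, bern_false]
    · rw [if_neg hi, if_neg hi]
      exact measure_univ
  simp_rw [h2]
  rw [Finset.prod_ite_mem]
  simp

lemma coord_indep {q : ℝ} (h0 : 0 ≤ q) (h1 : q ≤ 1) :
    iIndepFun (fun (i : ι) (ω : ι → Bool) => ω i) (pim ι q) := by
  have := bern_prob h0 h1
  exact iIndepFun_pi (X := fun _ => id) (fun _ => aemeasurable_id)

/-- Functions of disjoint sets of coordinates are independent. -/
lemma indep_of_disjoint {q : ℝ} (h0 : 0 ≤ q) (h1 : q ≤ 1) {α β : Type} [MeasurableSpace α]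
    [MeasurableSpace β] (S T : Finset ι) (hST : Disjoint S T)
    (f : (ι → Bool) → α) (g : (ι → Bool) → β)
    (hf : ∀ ω ω', (∀ i ∈ S, ω i = ω' i) → f ω = f ω')
    (hg : ∀ ω ω', (∀ i ∈ T, ω i = ω' i) → g ω = g ω') : IndepFun f g (pim ι q) := by
  classical
  have key := (coord_indep (ι := ι) h0 h1).indepFun_finset S T hST (fun i => measurable_pi_apply i)
  let F : (S → Bool) → α := fun τ => f (fun i => if h : i ∈ S then τ ⟨i, h⟩ else false)
  let G : (T → Bool) → β := fun τ => g (fun i => if h : i ∈ T then τ ⟨i, h⟩ else false)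
  have hF : Measurable F := Measurable.of_discrete
  have hG : Measurable G := Measurable.of_discrete
  have h2 := key.comp hF hG
  have e1 : F ∘ (fun (a : ι → Bool) (i : S) => a i) = f := by
    funext a
    simp only [Function.comp, F]
    apply hf
    intro i hi
    simp [hi]
  have e2 : G ∘ (fun (a : ι → Bool) (i : T) => a i) = g := by
    funext a
    simp only [Function.comp, G]
    apply hg
    intro i hi
    simp [hi]
  rwa [e1, e2] at h2

/-- Events depending on pairwise disjoint groups of coordinates. -/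
lemma prod_groups {q : ℝ} (h0 : 0 ≤ q) (h1 : q ≤ 1) {κ : Type} [DecidableEq κ] (grp : ι → κ)
    (E : κ → Set (ι → Bool))
    (hE : ∀ c ω ω', (∀ i, grp i = c → ω i = ω' i) → (ω ∈ E c ↔ ω' ∈ E c)) (T : Finset κ) :
    pim ι q {ω | ∀ c ∈ T, ω ∈ E c} = ∏ c ∈ T, pim ι q (E c) := by
  have := pim_prob (ι := ι) h0 h1
  induction T using Finset.induction_on with
  | empty => simp
  | insert a T ha ih =>
    rw [Finset.prod_insert ha, ← ih]
    have h2 := indep_of_disjoint (ι := ι) (q := q) h0 h1
      (Finset.univ.filter fun i => grp i = a) (Finset.univ.filter fun i => grp i ∈ T)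
      (by
        rw [Finset.disjoint_left]
        intro i hi hi'
        simp only [Finset.mem_filter, Finset.mem_univ, true_and] at hi hi'
        exact ha (hi ▸ hi'))
      (fun ω => ω ∈ E a) (fun ω => ∀ c ∈ T, ω ∈ E c)
      (by
        intro ω ω' h
        exact propext (hE a ω ω' fun i hi => h i (by simp [hi])))
      (by
        intro ω ω' h
        apply propext
        refine forall_congr' fun c => ?_
        refine forall_congr' fun hc => ?_
        exact hE c ω ω' fun i hi => h i (by simp [hi, hc]))
    have h3 := h2.measure_inter_preimage_eq_mul {True} {True} (by trivial) (by trivial)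
    have e1 : (fun ω : ι → Bool => ω ∈ E a) ⁻¹' {True} = E a := by
      ext ω; simp
    have e2 : (fun ω : ι → Bool => ∀ c ∈ T, ω ∈ E c) ⁻¹' {True} = {ω | ∀ c ∈ T, ω ∈ E c} := by
      ext ω; simp
    rw [e1, e2] at h3
    rw [← h3]
    congr 1
    ext ω
    simp

end Pool.Agent.V11324
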