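import Mathlib
import Pool.Agent.V11324.DepIndep

/-!
Hamiltonian cycles and independent sets; comparison of head and tail counts in groups of fair
coin flips.
-/

open MeasureTheory ProbabilityTheory Set Filter Topology
open scoped ENNReal

namespace Pool.Agent.V11324

lemma countP_eq_card {n : ℕ} (A : Finset (Fin n)) (L : List (Fin n)) (hL : ∀ b, L.count b = 1) :
    L.countP (fun x => decide (x ∈ A)) = A.card := by
  have hnd : L.Nodup := List.nodup_iff_count_le_one.2 fun b => (hL b).le
  rw [List.countP_eq_length_filter, ← List.toFinset_card_of_nodup (hnd.filter _)]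
  congr 1
  ext x
  simp only [List.toFinset_filter, decide_eq_true_eq, Finset.mem_filter, List.mem_toFinset]
  have : x ∈ L := List.count_pos_iff.1 (by rw [hL x]; exact one_pos)
  tauto

/-- In a Hamiltonian graph, a set `A` all of whose neighbours are in `C` has at most `|C|`
elements. -/
lemma ham_card {n : ℕ} {G : SimpleGraph (Fin n)} (hG : G.IsHamiltonian) (hn : n ≠ 1)
    (A C : Finset (Fin n)) (h : ∀ a ∈ A, ∀ b, G.Adj a b → b ∈ C) : A.card ≤ C.card := by
  obtain ⟨a, p, hp⟩ := hG (by simpa using hn)
  have h1 := (SimpleGraph.Walk.isHamiltonianCycle_iff_isCycle_and_support_count_tail_eq_one.1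
    hp).2
  have hperm : (p.darts.map (·.fst)).Perm (p.darts.map (·.snd)) := by
    have e1 := p.map_fst_darts_append
    have e2 := p.cons_map_snd_darts
    have e3 : (a :: p.darts.map (·.fst)).Perm (a :: p.darts.map (·.snd)) := by
      rw [e2, ← e1]
      exact (List.perm_append_singleton a _).symm
    exact (List.perm_cons a).1 e3
  rw [← countP_eq_card A _ h1, ← countP_eq_card C _ h1, ← p.map_snd_darts]
  rw [← hperm.countP_eq, List.countP_map, List.countP_map]
  refine List.countP_mono_left fun d _ hd => ?_
  simp only [Function.comp, decide_eq_true_eq] at hd ⊢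
  exact h _ hd _ d.adj

lemma not_preserving : MeasurePreserving Bool.not (bern (1 / 2)) (bern (1 / 2)) := by
  refine ⟨Measurable.of_discrete, ?_⟩
  rw [bern, Measure.map_add _ _ Measurable.of_discrete, Measure.map_smul, Measure.map_smul,
    Measure.map_dirac, Measure.map_dirac]
  norm_num
  rw [add_comm]

variable {ι : Type} [Fintype ι] [DecidableEq ι]

lemma flip_preserving (S : Finset ι) :
    MeasurePreserving (fun (ω : ι → Bool) i => (if i ∈ S then Bool.not else id) (ω i))
      (pim ι (1 / 2)) (pim ι (1 / 2)) := by
  have := bern_prob (q := 1 / 2) (by norm_num) (by norm_num)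
  unfold pim
  refine measurePreserving_pi _ _ (f := fun i => if i ∈ S then Bool.not else id) fun i => ?_
  by_cases hi : i ∈ S
  · simp only [hi, if_true]
    exact not_preserving
  · simp only [hi, if_false]
    exact MeasurePreserving.id _

/-- Number of `true`s on `g`. -/
def cT (g : Finset ι) (ω : ι → Bool) : ℕ := (g.filter fun i => ω i = true).card

/-- Number of `false`s on `g`. -/
def cF (g : Finset ι) (ω : ι → Bool) : ℕ := (g.filter fun i => ω i = false).card

omit [Fintype ι] [DecidableEq ι] in
lemma cT_add_cF (g : Finset ι) (ω : ι → Bool) : cT g ω + cF g ω = g.card := by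
  unfold cT cF
  rw [← Finset.card_filter_add_card_filter_not (s := g) (fun i => ω i = true)]
  congr 2
  refine Finset.filter_congr fun i _ => ?_
  simp

lemma half_bin (g : Finset ι) (hg : g.Nonempty) :
    (pim ι (1 / 2)).real {ω | cT g ω ≤ cF g ω} ≤ 3 / 4 := by
  have hP := pim_prob (ι := ι) (q := 1 / 2) (by norm_num) (by norm_num)
  obtain ⟨i0, hi0⟩ := hg
  set μ := pim ι (1 / 2) with hμ
  -- full flip
  have h1 : μ.real {ω | cT g ω < cF g ω} = μ.real {ω | cF g ω < cT g ω} := by
    have := (flip_preserving g).measureReal_preimage
      (s := {ω : ι → Bool | cT g ω < cF g ω}) (Set.toFinite _).measurableSet.nullMeasurableSet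
    rw [← this]
    congr 1
    ext ω
    simp only [Set.mem_preimage, Set.mem_ofPred_eq]
    have e1 : cT g (fun i => (if i ∈ g then Bool.not else id) (ω i)) = cF g ω := by
      unfold cT cF
      congr 1
      refine Finset.filter_congr fun i hi => ?_
      simp [hi]
    have e2 : cF g (fun i => (if i ∈ g then Bool.not else id) (ω i)) = cT g ω := by
      unfold cT cF
      congr 1
      refine Finset.filter_congr fun i hi => ?_
      simp [hi]
    rw [e1, e2]
  -- single flip
  have h2 : μ.real {ω | cT g ω = cF g ω} ≤ μ.real {ω | cT g ω ≠ cF g ω} := by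
    have := (flip_preserving ({i0} : Finset ι)).measureReal_preimage
      (s := {ω : ι → Bool | cT g ω = cF g ω}) (Set.toFinite _).measurableSet.nullMeasurableSet
    rw [← hμ] at this
    rw [← this]
    refine measureReal_mono ?_
    intro ω hω hω2
    simp only [Set.mem_preimage, Set.mem_ofPred_eq] at hω hω2
    set ω' : ι → Bool := fun i => (if i ∈ ({i0} : Finset ι) then Bool.not else id) (ω i) with hω'
    have hsum := cT_add_cF g ω
    have hsum' := cT_add_cF g ω'
    have hsplit : ∀ η : ι → Bool, cT g η = ((g.erase i0).filter fun i => η i = true).card +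
        (if η i0 = true then 1 else 0) := by
      intro η
      unfold cT
      rw [← Finset.insert_erase hi0, Finset.filter_insert, Finset.erase_insert (by simp)]
      split_ifs with hη
      · rw [Finset.card_insert_of_notMem (by simp)]
      · simp
    have hsame : ((g.erase i0).filter fun i => ω' i = true).card =
        ((g.erase i0).filter fun i => ω i = true).card := by
      congr 1
      refine Finset.filter_congr fun i hi => ?_
      have : i ≠ i0 := Finset.ne_of_mem_erase hi
      simp [hω', this]
    have s1 := hsplit ω
    have s2 := hsplit ω'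
    rw [hsame] at s2
    have hi : ω' i0 = !(ω i0) := by simp [hω']
    rw [hi] at s2
    cases hb : ω i0 <;> simp [hb] at s1 s2 <;> omega
  have h3 : μ.real {ω | cT g ω ≤ cF g ω} = μ.real {ω | cT g ω < cF g ω} +
      μ.real {ω | cT g ω = cF g ω} := by
    rw [← measureReal_union]
    · congr 1
      ext ω
      simp only [Set.mem_ofPred_eq, Set.mem_union]
      omega
    · rw [Set.disjoint_left]
      intro ω h1 h2
      simp only [Set.mem_ofPred_eq] at h1 h2
      omega
    · exact (Set.toFinite _).measurableSet
  have h4 : μ.real {ω | cT g ω ≠ cF g ω} = μ.real {ω | cT g ω < cF g ω} +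
      μ.real {ω | cF g ω < cT g ω} := by
    rw [← measureReal_union]
    · congr 1
      ext ω
      simp only [Set.mem_ofPred_eq, Set.mem_union]
      omega
    · rw [Set.disjoint_left]
      intro ω h1 h2
      simp only [Set.mem_ofPred_eq] at h1 h2
      omega
    · exact (Set.toFinite _).measurableSet
  have h5 : μ.real {ω | cT g ω ≤ cF g ω} + μ.real {ω | cF g ω < cT g ω} = 1 := by
    rw [← measureReal_union]
    · rw [← probReal_univ (μ := μ)]
      congr 1
      ext ω
      simp only [Set.mem_ofPred_eq, Set.mem_union, Set.mem_univ, iff_true]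
      omega
    · rw [Set.disjoint_left]
      intro ω h1 h2
      simp only [Set.mem_ofPred_eq] at h1 h2
      omega
    · exact (Set.toFinite _).measurableSet
  linarith

/-- For a fixed assignment `l` of the `n` points to levels such that all levels `< J` are hit,
the probability that in each level there are at most as many `true`s as `false`s. -/
lemma all_groups {n : ℕ} (l : Fin n → ℕ) (J : ℕ) (hl : ∀ j < J, ∃ i, l i = j) :
    pim (Fin n) (1 / 2) {s | ∀ j < J, cT (Finset.univ.filter fun i => l i = j) s ≤
      cF (Finset.univ.filter fun i => l i = j) s} ≤ ENNReal.ofReal ((3 / 4) ^ J) := by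
  have hP := pim_prob (ι := Fin n) (q := 1 / 2) (by norm_num) (by norm_num)
  have h := prod_groups (ι := Fin n) (q := 1 / 2) (by norm_num) (by norm_num) l
    (fun j => {s | cT (Finset.univ.filter fun i => l i = j) s ≤
      cF (Finset.univ.filter fun i => l i = j) s})
    (by
      intro c ω ω' h
      simp only [Set.mem_ofPred_eq]
      have e1 : cT (Finset.univ.filter fun i => l i = c) ω =
          cT (Finset.univ.filter fun i => l i = c) ω' := by
        unfold cT
        congr 1
        refine Finset.filter_congr fun i hi => ?_
        rw [h i (Finset.mem_filter.1 hi).2]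
      have e2 : cF (Finset.univ.filter fun i => l i = c) ω =
          cF (Finset.univ.filter fun i => l i = c) ω' := by
        unfold cF
        congr 1
        refine Finset.filter_congr fun i hi => ?_
        rw [h i (Finset.mem_filter.1 hi).2]
      rw [e1, e2]) (Finset.range J)
  simp only [Finset.mem_range] at h
  change pim (Fin n) (1 / 2) {s | ∀ j < J, s ∈ {s | cT (Finset.univ.filter fun i => l i = j) s ≤
      cF (Finset.univ.filter fun i => l i = j) s}} ≤ _
  rw [h]
  calc ∏ c ∈ Finset.range J, (pim (Fin n) (1 / 2)) {s | cT (Finset.univ.filter fun i => l i = c) s ≤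
      cF (Finset.univ.filter fun i => l i = c) s}
      ≤ ∏ c ∈ Finset.range J, ENNReal.ofReal (3 / 4) := by
        refine Finset.prod_le_prod' fun c hc => ?_
        rw [← ofReal_measureReal]
        refine ENNReal.ofReal_le_ofReal (half_bin _ ?_)
        obtain ⟨i, hi⟩ := hl c (Finset.mem_range.1 hc)
        exact ⟨i, by simp [hi]⟩
    _ = ENNReal.ofReal ((3 / 4) ^ J) := by
        rw [Finset.prod_const, Finset.card_range, ENNReal.ofReal_pow (by norm_num)]

end Pool.Agent.V11324
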