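import Mathlib
import Pool.Agent.V11324.HalfBin

/-!
A graphon with infinitely many exact peninsulas.
-/

open MeasureTheory ProbabilityTheory Set Filter Topology
open scoped ENNReal unitInterval

namespace Pool.Agent.V11324

/-- A graphon on the space `Ω`. -/
structure Graphon (Ω : Type) [MeasurableSpace Ω] where
  /-- the function -/
  W : Ω → Ω → ℝ
  measurable : Measurable fun z : Ω × Ω => W z.1 z.2
  symm : ∀ x y, W x y = W y x
  nonneg : ∀ x y, 0 ≤ W x y
  le_one : ∀ x y, W x y ≤ 1

namespace Graphon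

variable {Ω : Type} [MeasurableSpace Ω]

/-- The graph on `[n]` built from the points `x i ∈ Ω` and the uniform labels `u e ∈ [0,1]`:
the pair `ij` is an edge iff `u(ij) < W(x i, x j)`. -/
def sample (G : Graphon Ω) (n : ℕ) (x : Fin n → Ω) (u : Sym2 (Fin n) → I) :
    SimpleGraph (Fin n) where
  Adj i j := i ≠ j ∧ (u s(i, j) : ℝ) < G.W (x i) (x j)
  symm := ⟨fun i j h => ⟨h.1.symm, by rw [Sym2.eq_swap, G.symm]; exact h.2⟩⟩
  loopless := ⟨fun i h => h.1 rfl⟩

/-- The joint law of the independent points `x i ∼ μ` and of the independent uniform labels. -/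
noncomputable def sampleLaw (μ : Measure Ω) (n : ℕ) :
    Measure ((Fin n → Ω) × (Sym2 (Fin n) → I)) :=
  (Measure.pi fun _ : Fin n => μ).prod (Measure.pi fun _ : Sym2 (Fin n) => (volume : Measure I))

/-- `Pr[𝔾(n, W) is Hamiltonian]`. -/
noncomputable def probHam (G : Graphon Ω) (μ : Measure Ω) (n : ℕ) : ℝ≥0∞ :=
  sampleLaw μ n {z | (G.sample n z.1 z.2).IsHamiltonian}

/-- The graphon is connected. -/
def IsConnected (G : Graphon Ω) (μ : Measure Ω) : Prop :=
  ∀ S : Set Ω, MeasurableSet S → 0 < μ S → 0 < μ Sᶜ →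
    0 < ∫ z in S ×ˢ Sᶜ, G.W z.1 z.2 ∂(μ.prod μ)

/-- The degree. -/
noncomputable def deg (G : Graphon Ω) (μ : Measure Ω) (x : Ω) : ℝ := ∫ y, G.W x y ∂μ

/-- The set of points of degree at most `α`. -/
def lowDeg (G : Graphon Ω) (μ : Measure Ω) (α : ℝ) : Set Ω := {x | G.deg μ x ≤ α}

/-- Condition (ii): `μ(D_W(α)) / α → ∞` as `α ↘ 0`. -/
def ManyLowDeg (G : Graphon Ω) (μ : Measure Ω) : Prop :=
  Tendsto (fun α : ℝ => μ.real (G.lowDeg μ α) / α) (𝓝[>] 0) atTop

/-- Condition (iii): narrow peninsula (with `W = 0` almost everywhere on `A × (A ∪ B)`). -/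
def HasNarrowPeninsula (G : Graphon Ω) (μ : Measure Ω) : Prop :=
  ∃ (a : ℝ) (A B : Set Ω), 0 < a ∧ a ≤ 1 / 2 ∧ MeasurableSet A ∧ MeasurableSet B ∧ Disjoint A B ∧
    a < μ.real A ∧ μ.real B = 1 - 2 * a ∧
    ∀ᵐ z ∂(μ.prod μ), z ∈ A ×ˢ (A ∪ B) → G.W z.1 z.2 = 0

/-- Condition (iv): balanced bipartite. -/
def IsBalancedBipartite (G : Graphon Ω) (μ : Measure Ω) : Prop :=
  ∃ S T : Set Ω, MeasurableSet S ∧ MeasurableSet T ∧ S ∪ T = Set.univ ∧ Disjoint S T ∧
    μ.real S = 1 / 2 ∧ μ.real T = 1 / 2 ∧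
    ∀ᵐ z ∂(μ.prod μ), z ∈ (S ×ˢ S) ∪ (T ×ˢ T) → G.W z.1 z.2 = 0

end Graphon

/-- The geometric law `j ↦ 2^{-(j+1)}` on `ℕ`. -/
noncomputable def geo : Measure ℕ :=
  Measure.sum fun j : ℕ => ((2 : ℝ≥0∞)⁻¹ ^ (j + 1)) • Measure.dirac j

lemma tsum_half : ∑' i : ℕ, (2 : ℝ≥0∞)⁻¹ ^ (i + 1) = 1 := by
  rw [ENNReal.tsum_geometric_add_one, ENNReal.one_sub_inv_two, inv_inv]
  exact ENNReal.inv_mul_cancel (by simp) (by simp)

lemma geo_singleton (j : ℕ) : geo {j} = (2 : ℝ≥0∞)⁻¹ ^ (j + 1) := by
  rw [geo, Measure.sum_apply _ (measurableSet_singleton j)]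
  rw [tsum_eq_single j]
  · simp
  · intro i hi
    simp [hi]

instance geo_prob : IsProbabilityMeasure geo := by
  constructor
  rw [geo, Measure.sum_apply _ MeasurableSet.univ]
  simp only [Measure.smul_apply, measure_univ, smul_eq_mul, mul_one]
  exact tsum_half

/-- The space of the example. -/
abbrev Om : Type := (ℕ × Bool) × I

/-- The law of the example. -/
noncomputable def om : Measure Om := (geo.prod (bern (1 / 2))).prod volume

instance bern_half_prob : IsProbabilityMeasure (bern (1 / 2)) :=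
  bern_prob (by norm_num) (by norm_num)

instance om_prob : IsProbabilityMeasure om := by
  unfold om
  infer_instance

instance om_noAtoms : NullSingletonClass om := by
  unfold om
  infer_instance

example : StandardBorelSpace Om := inferInstance

/-- The relation defining the example: both points are of type `false`, or they have the same
level and opposite types. -/
def rel (a b : ℕ × Bool) : Prop := (a.2 = false ∧ b.2 = false) ∨ (a.1 = b.1 ∧ a.2 ≠ b.2)

open Classical in
/-- The graphon of the example. -/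
noncomputable def pen : Graphon Om where
  W x y := if rel x.1 y.1 then 1 else 0
  measurable := by
    have : Measurable fun p : (ℕ × Bool) × (ℕ × Bool) => (if rel p.1 p.2 then (1 : ℝ) else 0) :=
      Measurable.of_discrete
    exact this.comp ((measurable_fst.comp measurable_fst).prodMk
      (measurable_fst.comp measurable_snd))
  symm x y := by
    have : rel x.1 y.1 ↔ rel y.1 x.1 := by
      unfold rel
      constructor
      · rintro (⟨h1, h2⟩ | ⟨h1, h2⟩)
        · exact Or.inl ⟨h2, h1⟩
        · exact Or.inr ⟨h1.symm, h2.symm⟩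
      · rintro (⟨h1, h2⟩ | ⟨h1, h2⟩)
        · exact Or.inl ⟨h2, h1⟩
        · exact Or.inr ⟨h1.symm, h2.symm⟩
    simp only [this]
  nonneg x y := by split_ifs <;> norm_num
  le_one x y := by split_ifs <;> norm_num

/-- The piece of level `j` and type `b`. -/
def pc (j : ℕ) (b : Bool) : Set Om := {x | x.1 = (j, b)}

lemma pc_meas (j : ℕ) (b : Bool) : MeasurableSet (pc j b) :=
  measurable_fst (measurableSet_singleton _)

lemma bern_singleton (b : Bool) : bern (1 / 2) {b} = 2⁻¹ := by
  have h : ENNReal.ofReal (1 / 2) = 2⁻¹ := by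
    rw [one_div, ENNReal.ofReal_inv_of_pos (by norm_num)]
    simp
  cases b
  · rw [bern_false, show (1 : ℝ) - 1 / 2 = 1 / 2 by norm_num, h]
  · rw [← h]
    simp [bern]

lemma pc_measure (j : ℕ) (b : Bool) : om (pc j b) = (2 : ℝ≥0∞)⁻¹ ^ (j + 2) := by
  have : pc j b = (({j} : Set ℕ) ×ˢ ({b} : Set Bool)) ×ˢ (Set.univ : Set I) := by
    ext x
    simp [pc, Prod.ext_iff]
  rw [this, om, Measure.prod_prod, Measure.prod_prod, geo_singleton, bern_singleton]
  simp [pow_succ]

lemma W_one {x y : Om} (h : rel x.1 y.1) : pen.W x y = 1 := by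
  simp [pen, h]

lemma W_zero {x y : Om} (h : ¬ rel x.1 y.1) : pen.W x y = 0 := by
  simp [pen, h]

/-- The points of type `false`. -/
def Cs : Set Om := {x | x.1.2 = false}

lemma Cs_meas : MeasurableSet Cs :=
  (measurable_snd.comp measurable_fst) (measurableSet_singleton false)

/-- Positive-measure sets meet a piece in positive measure. -/
lemma exists_piece {S : Set Om} (hS : 0 < om S) : ∃ j b, 0 < om (S ∩ pc j b) := by
  by_contra hcon
  push Not at hcon
  have h : S = ⋃ p : ℕ × Bool, S ∩ pc p.1 p.2 := by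
    ext x
    simp only [Set.mem_iUnion, Set.mem_inter_iff, pc, Set.mem_ofPred_eq]
    constructor
    · intro hx
      exact ⟨x.1, hx, rfl⟩
    · rintro ⟨p, hx, -⟩
      exact hx
  have h2 : om S ≤ 0 := by
    rw [h]
    refine (measure_iUnion_le _).trans ?_
    simp only [nonpos_iff_eq_zero, ENNReal.tsum_eq_zero]
    intro p
    exact le_antisymm (hcon p.1 p.2) zero_le
  exact absurd hS (not_lt.2 h2)

lemma int_pos_of {S P Q : Set Om} (hP : MeasurableSet P)
    (hQ : MeasurableSet Q) (hPS : P ⊆ S) (hQS : Q ⊆ Sᶜ)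
    (hW : ∀ x ∈ P, ∀ y ∈ Q, pen.W x y = 1) (hP0 : 0 < om P) (hQ0 : 0 < om Q) :
    0 < ∫ z in S ×ˢ Sᶜ, pen.W z.1 z.2 ∂(om.prod om) := by
  have hint : Integrable (fun z : Om × Om => pen.W z.1 z.2) (om.prod om) := by
    refine Integrable.of_bound pen.measurable.aestronglyMeasurable 1 (ae_of_all _ fun z => ?_)
    rw [Real.norm_of_nonneg (pen.nonneg _ _)]
    exact pen.le_one _ _
  have h1 : ∫ z in P ×ˢ Q, pen.W z.1 z.2 ∂(om.prod om) ≤
      ∫ z in S ×ˢ Sᶜ, pen.W z.1 z.2 ∂(om.prod om) := by
    refine setIntegral_mono_set hint.integrableOn (ae_of_all _ fun z => pen.nonneg _ _) ?_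
    exact (Set.prod_mono hPS hQS).eventuallyLE
  have h2 : ∫ z in P ×ˢ Q, pen.W z.1 z.2 ∂(om.prod om) = (om.prod om).real (P ×ˢ Q) := by
    rw [setIntegral_congr_fun (hP.prod hQ) (g := fun _ => (1 : ℝ))
      (fun z hz => hW z.1 hz.1 z.2 hz.2)]
    simp
  have h3 : 0 < (om.prod om).real (P ×ˢ Q) := by
    rw [measureReal_def, Measure.prod_prod]
    exact ENNReal.toReal_pos (mul_ne_zero hP0.ne' hQ0.ne')
      (ENNReal.mul_ne_top (measure_ne_top _ _) (measure_ne_top _ _))
  linarith

lemma pen_connected : pen.IsConnected om := by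
  intro S hS hS0 hS1
  -- symmetric helper
  by_cases hA : 0 < om (S ∩ Cs)
  · by_cases hB : 0 < om (Sᶜ ∩ Cs)
    · refine int_pos_of (hS.inter Cs_meas) (hS.compl.inter Cs_meas) Set.inter_subset_left
        Set.inter_subset_left ?_ hA hB
      intro x hx y hy
      exact W_one (Or.inl ⟨hx.2, hy.2⟩)
    · -- `Cs ⊆ S` almost everywhere
      obtain ⟨j, b, hjb⟩ := exists_piece hS1
      have hb : b = true := by
        by_contra hb
        have hb' : b = false := by simpa using hb
        apply hB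
        refine hjb.trans_le (measure_mono ?_)
        rintro x ⟨hx1, hx2⟩
        refine ⟨hx1, ?_⟩
        simp only [pc, Set.mem_ofPred_eq] at hx2
        simp [Cs, hx2, hb']
      subst hb
      have hC : 0 < om (S ∩ pc j false) := by
        by_contra h0
        have h0' : om (S ∩ pc j false) = 0 := by simpa using h0
        have h1 : om (Sᶜ ∩ pc j false) = 0 := by
          refine le_antisymm ?_ zero_le
          rw [not_lt] at hB
          refine le_trans (measure_mono ?_) hB
          rintro x ⟨hx1, hx2⟩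
          refine ⟨hx1, ?_⟩
          simp only [pc, Set.mem_ofPred_eq] at hx2
          simp [Cs, hx2]
        have h2 : om (pc j false) = 0 := by
          have := measure_inter_add_sdiff (μ := om) (pc j false) hS
          rw [← this, Set.inter_comm, h0', Set.sdiff_eq, Set.inter_comm, h1, add_zero]
        rw [pc_measure] at h2
        simp at h2
      refine int_pos_of (hS.inter (pc_meas j false)) (hS.compl.inter (pc_meas j true))
        Set.inter_subset_left Set.inter_subset_left ?_ hC hjb
      intro x hx y hy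
      have e1 : x.1 = (j, false) := hx.2
      have e2 : y.1 = (j, true) := hy.2
      exact W_one (Or.inr (by rw [e1, e2]; simp))
  · -- `Cs ⊆ Sᶜ` almost everywhere
    obtain ⟨j, b, hjb⟩ := exists_piece hS0
    have hb : b = true := by
      by_contra hb
      have hb' : b = false := by simpa using hb
      apply hA
      refine hjb.trans_le (measure_mono ?_)
      rintro x ⟨hx1, hx2⟩
      refine ⟨hx1, ?_⟩
      simp only [pc, Set.mem_ofPred_eq] at hx2
      simp [Cs, hx2, hb']
    subst hb
    have hC : 0 < om (Sᶜ ∩ pc j false) := by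
      by_contra h0
      have h0' : om (Sᶜ ∩ pc j false) = 0 := by simpa using h0
      have h1 : om (S ∩ pc j false) = 0 := by
        refine le_antisymm ?_ zero_le
        rw [not_lt] at hA
        refine le_trans (measure_mono ?_) hA
        rintro x ⟨hx1, hx2⟩
        refine ⟨hx1, ?_⟩
        simp only [pc, Set.mem_ofPred_eq] at hx2
        simp [Cs, hx2]
      have h2 : om (pc j false) = 0 := by
        have := measure_inter_add_sdiff (μ := om) (pc j false) hS
        rw [← this, Set.inter_comm, h1, Set.sdiff_eq, Set.inter_comm, h0', add_zero]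
      rw [pc_measure] at h2
      simp at h2
    refine int_pos_of (hS.inter (pc_meas j true)) (hS.compl.inter (pc_meas j false))
      Set.inter_subset_left Set.inter_subset_left ?_ hjb hC
    intro x hx y hy
    have e1 : x.1 = (j, true) := hx.2
    have e2 : y.1 = (j, false) := hy.2
    exact W_one (Or.inr (by rw [e1, e2]; simp))

/-- If `W = 0` a.e. on a rectangle then two sets inside on which `W = 1` are not both of
positive measure. -/
lemma prod_zero {P Q : Set Om} {R : Set (Om × Om)} (hPQ : P ×ˢ Q ⊆ R)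
    (hW : ∀ x ∈ P, ∀ y ∈ Q, pen.W x y = 1)
    (h : ∀ᵐ z ∂(om.prod om), z ∈ R → pen.W z.1 z.2 = 0) : om P = 0 ∨ om Q = 0 := by
  have h1 : (om.prod om) (P ×ˢ Q) = 0 := by
    refine measure_mono_null ?_ (ae_iff.1 h)
    intro z hz
    simp only [Set.mem_ofPred_eq]
    intro hcon
    have h2 := hcon (hPQ hz)
    rw [hW z.1 hz.1 z.2 hz.2] at h2
    exact one_ne_zero h2
  rw [Measure.prod_prod] at h1
  exact mul_eq_zero.1 h1

lemma Cs_half : om Cs = 2⁻¹ := by
  have : Cs = ((Set.univ : Set ℕ) ×ˢ ({false} : Set Bool)) ×ˢ (Set.univ : Set I) := by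
    ext x
    simp [Cs]
  rw [this, om, Measure.prod_prod, Measure.prod_prod, bern_singleton]
  simp

lemma pen_not_bipartite : ¬ pen.IsBalancedBipartite om := by
  rintro ⟨S, T, hS, hT, hST, hd, -, -, h⟩
  have h1 : om (S ∩ Cs) = 0 := by
    have := prod_zero (P := S ∩ Cs) (Q := S ∩ Cs) (R := (S ×ˢ S) ∪ (T ×ˢ T))
      ((Set.prod_mono Set.inter_subset_left Set.inter_subset_left).trans Set.subset_union_left)
      (fun x hx y hy => W_one (Or.inl ⟨hx.2, hy.2⟩)) h
    simpa using this
  have h2 : om (T ∩ Cs) = 0 := by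
    have := prod_zero (P := T ∩ Cs) (Q := T ∩ Cs) (R := (S ×ˢ S) ∪ (T ×ˢ T))
      ((Set.prod_mono Set.inter_subset_left Set.inter_subset_left).trans Set.subset_union_right)
      (fun x hx y hy => W_one (Or.inl ⟨hx.2, hy.2⟩)) h
    simpa using this
  have h3 : om Cs = 0 := by
    have : Cs ⊆ (S ∩ Cs) ∪ (T ∩ Cs) := by
      rw [← Set.union_inter_distrib_right, hST, Set.univ_inter]
    refine measure_mono_null this (measure_union_null h1 h2)
  rw [Cs_half] at h3
  simp at h3

lemma pen_not_narrow : ¬ pen.HasNarrowPeninsula om := by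
  rintro ⟨a, A, B, ha, ha2, hA, hB, hAB, hAa, hBa, h⟩
  -- `A` has no mass on `Cs`
  have h1 : om (A ∩ Cs) = 0 := by
    have := prod_zero (P := A ∩ Cs) (Q := A ∩ Cs) (R := A ×ˢ (A ∪ B))
      (Set.prod_mono Set.inter_subset_left (Set.inter_subset_left.trans Set.subset_union_left))
      (fun x hx y hy => W_one (Or.inl ⟨hx.2, hy.2⟩)) h
    simpa using this
  have hkey : ∀ j, om (A ∩ pc j true) ≤ om (pc j false ∩ (A ∪ B)ᶜ) := by
    intro j
    rcases prod_zero (P := A ∩ pc j true) (Q := (A ∪ B) ∩ pc j false) (R := A ×ˢ (A ∪ B))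
      (Set.prod_mono Set.inter_subset_left Set.inter_subset_left)
      (by
        intro x hx y hy
        have e1 : x.1 = (j, true) := hx.2
        have e2 : y.1 = (j, false) := hy.2
        exact W_one (Or.inr (by rw [e1, e2]; simp))) h with h0 | h0
    · rw [h0]
      exact zero_le
    · have h2 : om (pc j false ∩ (A ∪ B)ᶜ) = om (pc j false) := by
        have := measure_inter_add_sdiff (μ := om) (pc j false) (hA.union hB)
        rw [Set.inter_comm, h0, zero_add, Set.sdiff_eq] at this
        exact this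
      rw [h2, pc_measure, ← pc_measure j true]
      exact measure_mono Set.inter_subset_right
  have hsum : om A ≤ om ((A ∪ B)ᶜ) := by
    have hA1 : A ⊆ (A ∩ Cs) ∪ ⋃ j, A ∩ pc j true := by
      intro x hx
      by_cases hb : x.1.2 = false
      · exact Or.inl ⟨hx, hb⟩
      · right
        simp only [Set.mem_iUnion, Set.mem_inter_iff]
        refine ⟨x.1.1, hx, ?_⟩
        simp only [pc, Set.mem_ofPred_eq]
        exact Prod.ext rfl (by simpa using hb)
    calc om A ≤ om (A ∩ Cs) + om (⋃ j, A ∩ pc j true) :=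
          (measure_mono hA1).trans (measure_union_le _ _)
      _ ≤ 0 + ∑' j, om (A ∩ pc j true) := by
          rw [h1]
          gcongr
          exact measure_iUnion_le _
      _ ≤ 0 + ∑' j, om (pc j false ∩ (A ∪ B)ᶜ) := by
          exact add_le_add le_rfl (ENNReal.tsum_le_tsum hkey)
      _ = om (⋃ j, pc j false ∩ (A ∪ B)ᶜ) := by
          rw [zero_add, measure_iUnion]
          · intro i j hij
            rw [Function.onFun, Set.disjoint_left]
            rintro x ⟨hx1, -⟩ ⟨hx2, -⟩
            have e1 : x.1 = (i, false) := hx1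
            have e2 : x.1 = (j, false) := hx2
            rw [e1] at e2
            exact hij (Prod.ext_iff.1 e2).1
          · intro j
            exact (pc_meas j false).inter (hA.union hB).compl
      _ ≤ om ((A ∪ B)ᶜ) := by
          refine measure_mono ?_
          refine Set.iUnion_subset fun j => Set.inter_subset_right
  have hreal : om.real A ≤ om.real ((A ∪ B)ᶜ) :=
    ENNReal.toReal_mono (measure_ne_top _ _) hsum
  rw [measureReal_compl (hA.union hB), measureReal_union hAB hB] at hreal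
  simp only [probReal_univ] at hreal
  linarith

lemma deg_ge (j : ℕ) (b : Bool) (x : Om) (hx : x.1 = (j, b)) :
    (1 / 2 : ℝ) ^ (j + 2) ≤ pen.deg om x := by
  have hint : Integrable (fun y : Om => pen.W x y) om := by
    refine Integrable.of_bound (pen.measurable.comp measurable_prodMk_left).aestronglyMeasurable 1
      (ae_of_all _ fun z => ?_)
    rw [Real.norm_of_nonneg (pen.nonneg _ _)]
    exact pen.le_one _ _
  have h1 : ∫ y in pc j (!b), pen.W x y ∂om ≤ pen.deg om x := by
    refine setIntegral_le_integral hint (ae_of_all _ fun y => pen.nonneg _ _)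
  have h2 : ∫ y in pc j (!b), pen.W x y ∂om = om.real (pc j (!b)) := by
    rw [setIntegral_congr_fun (pc_meas j (!b)) (g := fun _ => (1 : ℝ))
      (fun y hy => by
        have e2 : y.1 = (j, !b) := hy
        exact W_one (Or.inr (by rw [hx, e2]; simp)))]
    simp
  rw [h2, measureReal_def, pc_measure] at h1
  simpa using h1

lemma deg_ge_half (x : Om) (hx : x.1.2 = false) : (1 / 2 : ℝ) ≤ pen.deg om x := by
  have hint : Integrable (fun y : Om => pen.W x y) om := by
    refine Integrable.of_bound (pen.measurable.comp measurable_prodMk_left).aestronglyMeasurable 1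
      (ae_of_all _ fun z => ?_)
    rw [Real.norm_of_nonneg (pen.nonneg _ _)]
    exact pen.le_one _ _
  have h1 : ∫ y in Cs, pen.W x y ∂om ≤ pen.deg om x := by
    refine setIntegral_le_integral hint (ae_of_all _ fun y => pen.nonneg _ _)
  have h2 : ∫ y in Cs, pen.W x y ∂om = om.real Cs := by
    rw [setIntegral_congr_fun Cs_meas (g := fun _ => (1 : ℝ))
      (fun y hy => W_one (Or.inl ⟨hx, hy⟩))]
    simp
  rw [h2, measureReal_def, Cs_half] at h1
  simpa using h1

lemma lowDeg_le (m : ℕ) : om.real (pen.lowDeg om ((1 / 2 : ℝ) ^ (m + 2))) ≤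
    (1 / 2 : ℝ) ^ (m + 1) := by
  have hsub : pen.lowDeg om ((1 / 2 : ℝ) ^ (m + 2)) ⊆ ⋃ i : ℕ, pc (m + i) true := by
    intro x hx
    have hx' : pen.deg om x ≤ (1 / 2 : ℝ) ^ (m + 2) := hx
    have hb : x.1.2 = true := by
      by_contra hb
      have := deg_ge_half x (by simpa using hb)
      have h2 : (1 / 2 : ℝ) ^ (m + 2) < 1 / 2 := by
        calc (1 / 2 : ℝ) ^ (m + 2) = (1 / 2) ^ (m + 1) * (1 / 2) := by ring
          _ < 1 * (1 / 2) := by
            have : (1 / 2 : ℝ) ^ (m + 1) < 1 := pow_lt_one₀ (by norm_num) (by norm_num) (by omega)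
            linarith
          _ = 1 / 2 := by norm_num
      linarith
    have hj : m ≤ x.1.1 := by
      by_contra hj
      push Not at hj
      have h1 := deg_ge x.1.1 x.1.2 x rfl
      have h2 : (1 / 2 : ℝ) ^ (m + 2) < (1 / 2) ^ (x.1.1 + 2) :=
        pow_lt_pow_right_of_lt_one₀ (by norm_num) (by norm_num) (by omega)
      linarith
    simp only [Set.mem_iUnion, pc, Set.mem_ofPred_eq]
    refine ⟨x.1.1 - m, ?_⟩
    refine Prod.ext ?_ hb
    simp only
    omega
  have h1 : om (⋃ i : ℕ, pc (m + i) true) ≤ (2 : ℝ≥0∞)⁻¹ ^ (m + 1) := by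
    refine (measure_iUnion_le _).trans ?_
    simp_rw [pc_measure]
    have : ∀ i : ℕ, (2 : ℝ≥0∞)⁻¹ ^ (m + i + 2) = (2 : ℝ≥0∞)⁻¹ ^ (m + 1) * (2 : ℝ≥0∞)⁻¹ ^ (i + 1) := by
      intro i
      rw [← pow_add]
      congr 1
      omega
    simp_rw [this]
    rw [ENNReal.tsum_mul_left, tsum_half, mul_one]
  have h2 : om.real (⋃ i : ℕ, pc (m + i) true) ≤ (1 / 2 : ℝ) ^ (m + 1) := by
    have := ENNReal.toReal_mono (by simp) h1
    simpa [measureReal_def] using this
  exact (measureReal_mono hsub).trans h2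

lemma pen_not_manyLow : ¬ pen.ManyLowDeg om := by
  intro h
  have hseq : Tendsto (fun m : ℕ => (1 / 2 : ℝ) ^ (m + 2)) atTop (𝓝[>] 0) := by
    rw [tendsto_nhdsWithin_iff]
    refine ⟨?_, Eventually.of_forall fun m => ?_⟩
    · exact (tendsto_pow_atTop_nhds_zero_of_lt_one (by norm_num) (by norm_num)).comp
        (tendsto_add_atTop_nat 2)
    · simp only [Set.mem_Ioi]
      positivity
  have h1 := (h.comp hseq).eventually_gt_atTop 2
  obtain ⟨m, hm⟩ := h1.exists
  simp only [Function.comp] at hm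
  have h2 := lowDeg_le m
  have h3 : (0 : ℝ) < (1 / 2 : ℝ) ^ (m + 2) := by positivity
  rw [lt_div_iff₀ h3] at hm
  have h4 : (1 / 2 : ℝ) ^ (m + 1) = 2 * (1 / 2) ^ (m + 2) := by
    rw [pow_succ (1 / 2 : ℝ) (m + 1)]
    ring
  linarith

end Pool.Agent.V11324
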