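import Mathlib
import Pool.Agent.V11324.DepIndep

/-!
A locally dependent random graph which is connected at low density.
-/

open MeasureTheory ProbabilityTheory Set Filter Topology Asymptotics
open scoped ENNReal

namespace Pool.Agent.V11324

/-- Unordered pairs of distinct vertices of `[n]`. -/
abbrev VPair (n : ℕ) : Type := {e : Sym2 (Fin n) // ¬ e.IsDiag}

/-- `edgeInd G e` is the (indicator of the) event that the pair `e` is an edge of the random
graph `G`, as a random variable with values in `Prop`. -/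
def edgeInd {n : ℕ} {Ω : Type} (G : Ω → SimpleGraph (Fin n)) (e : VPair n) (ω : Ω) : Prop :=
  (e : Sym2 (Fin n)) ∈ (G ω).edgeSet

/-- `D` is a dependency graph for the edge indicators of the random graph `G`: each `X_e` is
independent of the family of all `X_f` with `f ≠ e` and `f` not adjacent to `e` in `D`. -/
def IsDependencyGraph {n : ℕ} {Ω : Type} [MeasurableSpace Ω] (μ : Measure Ω)
    (G : Ω → SimpleGraph (Fin n)) (D : SimpleGraph (VPair n)) : Prop :=
  ∀ e : VPair n, IndepFun (edgeInd G e)
    (fun ω (f : {f : VPair n // f ≠ e ∧ ¬ D.Adj e f}) => edgeInd G f ω) μ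

/-- `G` is a `d`-dependent random graph on `[n]` with edge probability `p`. -/
structure IsDependentRandomGraph (n : ℕ) (p : ℝ) (d : ℕ) {Ω : Type} [MeasurableSpace Ω]
    (μ : Measure Ω) (G : Ω → SimpleGraph (Fin n)) : Prop where
  prob : IsProbabilityMeasure μ
  meas : ∀ e : VPair n, Measurable (edgeInd G e)
  edge_prob : ∀ e : VPair n, μ.real {ω | edgeInd G e ω} = p
  dep : ∃ D : SimpleGraph (VPair n), IsDependencyGraph μ G D ∧
    ∀ e, (D.neighborSet e).ncard ≤ d

section model

variable (n k : ℕ) [NeZero k]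

/-- Block of a vertex. -/
def blk (v : Fin n) : Fin k := Fin.ofNat k v

/-- The random graph: `u ~ w` iff `u` has a star to the block of `w` or conversely. -/
def starGraph (ω : Fin n × Fin k → Bool) : SimpleGraph (Fin n) where
  Adj u w := u ≠ w ∧ (ω (u, blk n k w) = true ∨ ω (w, blk n k u) = true)
  symm := ⟨fun u w h => ⟨h.1.symm, h.2.symm⟩⟩
  loopless := ⟨fun u h => h.1 rfl⟩

variable {n k}

/-- The coordinates on which the pair `e` depends. -/
def coords (e : Sym2 (Fin n)) : Set (Fin n × Fin k) :=
  {c | ∃ x, e = s(c.1, x) ∧ blk n k x = c.2}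

lemma edgeInd_congr (e : VPair n) (ω ω' : Fin n × Fin k → Bool)
    (h : ∀ c ∈ coords (k := k) (e : Sym2 (Fin n)), ω c = ω' c) :
    edgeInd (starGraph n k) e ω = edgeInd (starGraph n k) e ω' := by
  obtain ⟨e, he⟩ := e
  induction e using Sym2.inductionOn with
  | _ u w =>
    simp only [edgeInd, SimpleGraph.mem_edgeSet, starGraph]
    rw [h (u, blk n k w) ⟨w, rfl, rfl⟩, h (w, blk n k u) ⟨u, Sym2.eq_swap, rfl⟩]

lemma blk_card_le (B : Fin k) : (Finset.univ.filter fun x : Fin n => blk n k x = B).card
    ≤ n / k + 1 := by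
  have hk : 0 < k := Nat.pos_of_ne_zero (NeZero.ne k)
  have h1 : (Finset.univ.filter fun x : Fin n => blk n k x = B).card ≤
      n.count (· ≡ (B : ℕ) [MOD k]) := by
    rw [Nat.count_eq_card_filter_range]
    refine Finset.card_le_card_of_injOn (fun x => (x : ℕ)) ?_ (Fin.val_injective.injOn)
    intro x hx
    simp only [Finset.coe_filter, Finset.mem_univ, true_and, Set.mem_ofPred_eq, Finset.mem_range]
      at hx ⊢
    refine ⟨x.2, ?_⟩
    rw [← hx]
    simp [blk, Nat.ModEq, Fin.ofNat]
  refine h1.trans ?_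
  rw [Nat.count_modEq_card _ hk]
  split_ifs <;> omega

lemma le_blk_card (B : Fin k) : n / k ≤
    (Finset.univ.filter fun x : Fin n => blk n k x = B).card := by
  have hk : 0 < k := Nat.pos_of_ne_zero (NeZero.ne k)
  have h1 : n.count (· ≡ (B : ℕ) [MOD k]) ≤
      (Finset.univ.filter fun x : Fin n => blk n k x = B).card := by
    rw [Nat.count_eq_card_filter_range]
    refine Finset.card_le_card_of_surjOn (fun x => (x : ℕ)) ?_
    intro x hx
    simp only [Finset.coe_filter, Finset.mem_univ, true_and, Set.mem_ofPred_eq, Finset.mem_range,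
      Set.mem_image] at hx ⊢
    refine ⟨⟨x, hx.1⟩, ?_, rfl⟩
    have h2 := hx.2
    apply Fin.ext
    simp only [blk, Fin.ofNat]
    rw [h2, Nat.mod_eq_of_lt B.2]
  refine le_trans ?_ h1
  rw [Nat.count_modEq_card _ hk]
  omega

/-- The dependency graph. -/
def depGraph (n k : ℕ) [NeZero k] : SimpleGraph (VPair n) where
  Adj e f := e ≠ f ∧ ((coords (k := k) (e : Sym2 (Fin n))) ∩ coords (k := k) f).Nonempty
  symm := ⟨fun e f h => ⟨h.1.symm, by rw [Set.inter_comm]; exact h.2⟩⟩
  loopless := ⟨fun e h => h.1 rfl⟩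

lemma depGraph_deg (e : VPair n) :
    ((depGraph n k).neighborSet e).ncard ≤ 2 * (n / k + 1) := by
  classical
  obtain ⟨e, he⟩ := e
  induction e using Sym2.inductionOn with
  | _ u w =>
    have hsub : Subtype.val '' ((depGraph n k).neighborSet ⟨s(u, w), he⟩) ⊆
        (((Finset.univ.filter fun x : Fin n => blk n k x = blk n k w).image (fun x => s(u, x))) ∪
        ((Finset.univ.filter fun x : Fin n => blk n k x = blk n k u).image (fun x => s(w, x))) :
          Finset (Sym2 (Fin n))) := by
      rintro _ ⟨f, hf, rfl⟩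
      obtain ⟨-, c, hc1, hc2⟩ := hf
      obtain ⟨x, hx1, hx2⟩ := hc1
      obtain ⟨y, hy1, hy2⟩ := hc2
      simp only [Finset.coe_union, Finset.coe_image, Finset.coe_filter, Finset.mem_univ, true_and,
        Set.mem_union, Set.mem_image, Set.mem_ofPred_eq]
      simp only [Sym2.eq_iff] at hx1
      rcases hx1 with ⟨h1, h2⟩ | ⟨h1, h2⟩
      · left
        refine ⟨y, ?_, ?_⟩
        · rw [hy2, ← hx2, h2]
        · rw [hy1, h1]
      · right
        refine ⟨y, ?_, ?_⟩
        · rw [hy2, ← hx2, h1]
        · rw [hy1, h2]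
    rw [← Set.ncard_image_of_injective _ Subtype.val_injective]
    refine (Set.ncard_le_ncard hsub (Finset.finite_toSet _)).trans ?_
    rw [Set.ncard_coe_finset]
    refine (Finset.card_union_le _ _).trans ?_
    have h1 := (Finset.card_image_le (s := Finset.univ.filter
      fun x : Fin n => blk n k x = blk n k w) (f := fun x => s(u, x))).trans (blk_card_le _)
    have h2 := (Finset.card_image_le (s := Finset.univ.filter
      fun x : Fin n => blk n k x = blk n k u) (f := fun x => s(w, x))).trans (blk_card_le _)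
    omega

lemma depGraph_isDep {q : ℝ} (h0 : 0 ≤ q) (h1 : q ≤ 1) :
    IsDependencyGraph (pim (Fin n × Fin k) q) (starGraph n k) (depGraph n k) := by
  classical
  intro e
  refine indep_of_disjoint h0 h1 (Finset.univ.filter fun c => c ∈ coords (k := k) (e : Sym2 (Fin n)))
    (Finset.univ.filter fun c => c ∉ coords (k := k) (e : Sym2 (Fin n))) ?_ _ _ ?_ ?_
  · rw [Finset.disjoint_left]
    intro c hc hc'
    simp only [Finset.mem_filter, Finset.mem_univ, true_and] at hc hc'
    exact hc' hc
  · intro ω ω' h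
    exact edgeInd_congr e ω ω' fun c hc => h c (by simp [hc])
  · intro ω ω' h
    funext f
    obtain ⟨f, hf1, hf2⟩ := f
    refine edgeInd_congr f ω ω' fun c hc => h c ?_
    simp only [Finset.mem_filter, Finset.mem_univ, true_and]
    intro hce
    exact hf2 ⟨hf1.symm, c, hce, hc⟩

lemma starGraph_edge_prob {q : ℝ} (h0 : 0 ≤ q) (h1 : q ≤ 1) (e : VPair n) :
    (pim (Fin n × Fin k) q).real {ω | edgeInd (starGraph n k) e ω} = 1 - (1 - q) ^ 2 := by
  classical
  have hP := pim_prob (ι := Fin n × Fin k) h0 h1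
  obtain ⟨e, he⟩ := e
  induction e using Sym2.inductionOn with
  | _ u w =>
    have huw : u ≠ w := by
      intro h
      exact he (by simp [h])
    have hS : {ω | edgeInd (starGraph n k) ⟨s(u, w), he⟩ ω} =
        {ω | ∀ i ∈ ({(u, blk n k w), (w, blk n k u)} : Finset (Fin n × Fin k)), ω i = false}ᶜ := by
      ext ω
      simp only [edgeInd, SimpleGraph.mem_edgeSet, starGraph, Set.mem_ofPred_eq, Set.mem_compl_iff,
        Finset.mem_insert, Finset.mem_singleton, forall_eq_or_imp, forall_eq, ne_eq, huw,
        not_false_eq_true, true_and]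
      cases ω (u, blk n k w) <;> cases ω (w, blk n k u) <;> simp
    rw [hS, measureReal_compl (by measurability), measureReal_def, measureReal_def, pim_box h0 h1]
    rw [Finset.card_pair (by simp [huw])]
    simp [ENNReal.toReal_ofReal (show (0:ℝ) ≤ 1 - q by linarith)]

lemma starGraph_dep {q : ℝ} (h0 : 0 ≤ q) (h1 : q ≤ 1) :
    IsDependentRandomGraph n (1 - (1 - q) ^ 2) (2 * (n / k + 1)) (pim (Fin n × Fin k) q)
      (starGraph n k) where
  prob := pim_prob h0 h1
  meas := fun _ => Measurable.of_discrete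
  edge_prob := starGraph_edge_prob h0 h1
  dep := ⟨depGraph n k, depGraph_isDep h0 h1, depGraph_deg⟩

end model

end Pool.Agent.V11324
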