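import Mathlib

set_option autoImplicit false

/-! Existence of a process on a countable space with given transition probabilities. -/

namespace Pool.Agent.V11324.Process

open MeasureTheory ProbabilityTheory Filter Topology Finset Preorder
open scoped ENNReal

theorem exists_process {V : Type*} [Countable V] (v : V) (p : ℕ → (ℕ → V) → PMF V)
    (hp : ∀ n w w', (∀ k ≤ n, w k = w' k) → p n w = p n w') :
    ∃ (_ : MeasurableSpace (ℕ → V)) (P : Measure (ℕ → V)), IsProbabilityMeasure P ∧
      (∀ (n : ℕ) (x : V), MeasurableSet {ω : ℕ → V | ω n = x}) ∧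
      P {ω | ω 0 = v} = 1 ∧
      ∀ (n : ℕ) (w : ℕ → V) (x : V), P {ω | (∀ k ≤ n, ω k = w k) ∧ ω (n + 1) = x} =
        p n w x * P {ω | ∀ k ≤ n, ω k = w k} := by
  classical
  let mV : MeasurableSpace V := ⊤
  have hV : DiscreteMeasurableSpace V := ⟨fun _ => trivial⟩
  -- extension of a finite history
  let ext : (n : ℕ) → ((i : Iic n) → V) → ℕ → V := fun n h k =>
    if hk : k ≤ n then h ⟨k, Finset.mem_Iic.2 hk⟩ else v
  let κ : (n : ℕ) → Kernel ((i : Iic n) → V) V := fun n =>
    Kernel.ofFunOfCountable fun h => (p n (ext n h)).toMeasure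
  have hκ : ∀ n, IsMarkovKernel (κ n) := fun n =>
    ⟨fun h => PMF.toMeasure.isProbabilityMeasure _⟩
  let x₀ : (i : Iic 0) → V := fun _ => v
  let P : Measure (ℕ → V) := Kernel.traj (X := fun _ => V) κ 0 x₀
  have hP : IsProbabilityMeasure P := inferInstance
  refine ⟨MeasurableSpace.pi, P, hP, ?_, ?_, ?_⟩
  · intro n x
    have h : Measurable fun ω : ℕ → V => ω n := measurable_pi_apply n
    exact h (MeasurableSet.singleton x)
  · have h1 : P.map (frestrictLe (π := fun _ : ℕ => V) 0) = Measure.dirac x₀ := by
      have := Kernel.traj_map_frestrictLe_apply (X := fun _ : ℕ => V) (κ := κ) 0 0 x₀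
      rw [Kernel.partialTraj_self, Kernel.id_apply] at this
      exact this
    have h2 : {ω : ℕ → V | ω 0 = v} =
        (frestrictLe (π := fun _ : ℕ => V) 0) ⁻¹' ({x₀} : Set ((i : Iic 0) → V)) := by
      ext ω
      rw [Set.mem_preimage, Set.mem_singleton_iff]
      constructor
      · intro h
        funext i
        have hi : (i : ℕ) = 0 := Nat.le_zero.1 (Finset.mem_Iic.1 i.2)
        show ω i = v
        rw [hi]; exact h
      · intro h
        have := congrFun h ⟨0, Finset.mem_Iic.2 le_rfl⟩
        exact this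
    rw [h2, ← Measure.map_apply (measurable_frestrictLe 0) (MeasurableSet.singleton _), h1,
      Measure.dirac_apply' _ (MeasurableSet.singleton _)]
    simp
  · intro n w x
    have h1 : Kernel.partialTraj (X := fun _ : ℕ => V) κ 0 n x₀ ⊗ₘ (κ n) =
        P.map fun ω => (frestrictLe (π := fun _ : ℕ => V) n ω, ω (n + 1)) :=
      Kernel.partialTraj_compProd_eq_map_traj (X := fun _ : ℕ => V) (κ := κ) (Nat.zero_le n)
    have h2 : P.map (frestrictLe (π := fun _ : ℕ => V) n) =
        Kernel.partialTraj (X := fun _ : ℕ => V) κ 0 n x₀ :=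
      Kernel.traj_map_frestrictLe_apply (X := fun _ : ℕ => V) (κ := κ) 0 n x₀
    have h3 : {ω : ℕ → V | (∀ k ≤ n, ω k = w k) ∧ ω (n + 1) = x} =
        (fun ω : ℕ → V => (frestrictLe (π := fun _ : ℕ => V) n ω, ω (n + 1))) ⁻¹'
          (({fun i : Iic n => w i} : Set ((i : Iic n) → V)) ×ˢ ({x} : Set V)) := by
      ext ω
      rw [Set.mem_preimage, Set.mem_prod, Set.mem_singleton_iff, Set.mem_singleton_iff]
      constructor
      · rintro ⟨h, h'⟩
        refine ⟨?_, h'⟩
        funext i
        exact h i (Finset.mem_Iic.1 i.2)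
      · rintro ⟨h, h'⟩
        exact ⟨fun k hk => congrFun h ⟨k, Finset.mem_Iic.2 hk⟩, h'⟩
    have h4 : {ω : ℕ → V | ∀ k ≤ n, ω k = w k} =
        (frestrictLe (π := fun _ : ℕ => V) n) ⁻¹' ({fun i : Iic n => w i} : Set ((i : Iic n) → V)) := by
      ext ω
      rw [Set.mem_preimage, Set.mem_singleton_iff]
      constructor
      · intro h
        funext i
        exact h i (Finset.mem_Iic.1 i.2)
      · intro h k hk
        exact congrFun h ⟨k, Finset.mem_Iic.2 hk⟩
    have hm1 : Measurable fun ω : ℕ → V => (frestrictLe (π := fun _ : ℕ => V) n ω, ω (n + 1)) :=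
      (measurable_frestrictLe n).prodMk (measurable_pi_apply _)
    have hs1 : MeasurableSet ({fun i : Iic n => w i} : Set ((i : Iic n) → V)) :=
      MeasurableSet.singleton _
    rw [h3, h4, ← Measure.map_apply hm1 (hs1.prod (MeasurableSet.singleton _)), ← h1,
      ← Measure.map_apply (measurable_frestrictLe n) hs1, h2,
      Measure.compProd_apply_prod hs1 (MeasurableSet.singleton _), lintegral_singleton']
    · have e : κ n (fun i : Iic n => w i) {x} = p n w x := by
        show (p n (ext n fun i : Iic n => w i)).toMeasure {x} = _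
        rw [PMF.toMeasure_apply_singleton _ _ (MeasurableSet.singleton _)]
        congr 1
        refine hp n _ _ fun k hk => ?_
        simp only [ext, dif_pos hk]
      rw [e]
    · exact Kernel.measurable_coe _ (MeasurableSet.singleton _)

end Pool.Agent.V11324.Process
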