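import Mathlib
import Pool.Agent.V11324.Process

set_option autoImplicit false

/-! Directed edge reinforced random walk with polynomial reinforcement. -/

namespace Pool.Agent.V11324.Derrw

open MeasureTheory Filter Topology
open scoped ENNReal

noncomputable section

attribute [local instance] Classical.propDecidable

variable {V : Type*}

/-- The crossing number: the net number of jumps from `x` to `y` before time `n` along the path
`X`. -/
def cross (X : ℕ → V) (n : ℕ) (x y : V) : ℤ :=
  ∑ k ∈ Finset.range n,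
    ((if X k = x ∧ X (k + 1) = y then 1 else 0) - if X k = y ∧ X (k + 1) = x then 1 else 0)

/-- The polynomial weight of a crossing number. -/
def weight (γ : ℝ) (c : ℤ) : ℝ :=
  if 0 < c then (c : ℝ) ^ γ else if c = 0 then 1 else (-(c : ℝ)) ^ (-γ)

/-- The probability to jump to `x` at time `n` when the path up to time `n` is `X`. -/
def trans (G : SimpleGraph V) [G.LocallyFinite] (γ : ℝ) (X : ℕ → V) (n : ℕ) (x : V) : ℝ :=
  if G.Adj (X n) x then
    weight γ (cross X n (X n) x) / ∑ y ∈ G.neighborFinset (X n), weight γ (cross X n (X n) y)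
  else 0

/-- `X` is the walk with polynomial reinforcement started at `v`. -/
structure IsWalk {Ω : Type*} [MeasurableSpace Ω] (G : SimpleGraph V) [G.LocallyFinite] (γ : ℝ)
    (v : V) (P : Measure Ω) (X : ℕ → Ω → V) : Prop where
  meas : ∀ n x, MeasurableSet {ω | X n ω = x}
  start : P {ω | X 0 ω = v} = 1
  step : ∀ (n : ℕ) (w : ℕ → V) (x : V), P {ω | (∀ k ≤ n, X k ω = w k) ∧ X (n + 1) ω = x} =
    ENNReal.ofReal (trans G γ w n x) * P {ω | ∀ k ≤ n, X k ω = w k}

/-- The path `x` is trapped in a directed circuit `u 0, ..., u (m - 1)`, `3 ≤ m`, of distinct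
vertices. -/
def Trapped (G : SimpleGraph V) (x : ℕ → V) : Prop :=
  ∃ m : ℕ, 3 ≤ m ∧ ∃ u : ZMod m → V, Function.Injective u ∧ (∀ i, G.Adj (u i) (u (i + 1))) ∧
    ∃ (N : ℕ) (i : ZMod m), ∀ j : ℕ, x (N + j) = u (i + j)

theorem weight_pos (γ : ℝ) (c : ℤ) : 0 < weight γ c := by
  unfold weight
  split_ifs with h1 h2
  · exact Real.rpow_pos_of_pos (by exact_mod_cast h1) _
  · exact one_pos
  · have h3 : c < 0 := lt_of_le_of_ne (not_lt.1 h1) h2
    exact Real.rpow_pos_of_pos (by have : (c : ℝ) < 0 := by exact_mod_cast h3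
                                   linarith) _

theorem weight_le {γ : ℝ} (hγ : 0 < γ) {c : ℤ} {n : ℕ} (hn : 1 ≤ n) (hc : |c| ≤ n) :
    weight γ c ≤ (n : ℝ) ^ γ := by
  have hn' : (1 : ℝ) ≤ n := by exact_mod_cast hn
  have h1n : (1 : ℝ) ≤ (n : ℝ) ^ γ := Real.one_le_rpow hn' hγ.le
  have hcr : |(c : ℝ)| ≤ n := by exact_mod_cast hc
  rw [abs_le] at hcr
  unfold weight
  split_ifs with h1 h2
  · have h3 : (0 : ℝ) < c := by exact_mod_cast h1
    exact Real.rpow_le_rpow h3.le hcr.2 hγ.le
  · exact h1n
  · have h3 : c ≤ -1 := by omega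
    have h4 : (1 : ℝ) ≤ -(c : ℝ) := by
      have : (c : ℝ) ≤ -1 := by exact_mod_cast h3
      linarith
    exact (Real.rpow_le_one_of_one_le_of_nonpos h4 (by linarith)).trans h1n

theorem le_weight {γ : ℝ} (hγ : 0 < γ) {c : ℤ} {n : ℕ} (hn : 1 ≤ n) (hc : |c| ≤ n) :
    (n : ℝ) ^ (-γ) ≤ weight γ c := by
  have hn' : (1 : ℝ) ≤ n := by exact_mod_cast hn
  have h1n : (n : ℝ) ^ (-γ) ≤ 1 := Real.rpow_le_one_of_one_le_of_nonpos hn' (by linarith)
  have hcr : |(c : ℝ)| ≤ n := by exact_mod_cast hc
  rw [abs_le] at hcr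
  unfold weight
  split_ifs with h1 h2
  · have h3 : (1 : ℝ) ≤ c := by exact_mod_cast h1
    exact h1n.trans (Real.one_le_rpow h3 hγ.le)
  · exact h1n
  · have h3 : c ≤ -1 := by omega
    have h4 : (1 : ℝ) ≤ -(c : ℝ) := by
      have : (c : ℝ) ≤ -1 := by exact_mod_cast h3
      linarith
    exact Real.rpow_le_rpow_of_nonpos (by linarith) (by linarith) (by linarith)

theorem abs_cross_le (X : ℕ → V) (n : ℕ) (x y : V) : |cross X n x y| ≤ n := by
  unfold cross
  calc |∑ k ∈ Finset.range n,
      (((if X k = x ∧ X (k + 1) = y then 1 else 0) - if X k = y ∧ X (k + 1) = x then 1 else 0 : ℤ))|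
      ≤ ∑ k ∈ Finset.range n, |((if X k = x ∧ X (k + 1) = y then 1 else 0) -
        if X k = y ∧ X (k + 1) = x then 1 else 0 : ℤ)| := Finset.abs_sum_le_sum_abs _ _
    _ ≤ ∑ k ∈ Finset.range n, 1 := by
        refine Finset.sum_le_sum fun k _ => ?_
        split_ifs <;> simp
    _ = n := by simp

variable (G : SimpleGraph V) [G.LocallyFinite] {γ : ℝ}

/-- leaving probability -/
theorem one_sub_trans_ge (hγ : 0 < γ) (x : ℕ → V) {n : ℕ} (hn : 1 ≤ n)
    (hadj : G.Adj (x n) (x (n + 1))) {y : V} (hy : G.Adj (x n) y) (hne : y ≠ x (n + 1)) :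
    weight γ (cross x n (x n) y) / (G.degree (x n) * (n : ℝ) ^ γ) ≤
      1 - trans G γ x n (x (n + 1)) := by
  set Z := ∑ z ∈ G.neighborFinset (x n), weight γ (cross x n (x n) z) with hZ
  have hZpos : 0 < Z := by
    refine Finset.sum_pos (fun z _ => weight_pos γ _) ⟨y, ?_⟩
    rwa [SimpleGraph.mem_neighborFinset]
  have hZle : Z ≤ G.degree (x n) * (n : ℝ) ^ γ := by
    calc Z ≤ ∑ z ∈ G.neighborFinset (x n), (n : ℝ) ^ γ :=
          Finset.sum_le_sum fun z _ => weight_le hγ hn (abs_cross_le _ _ _ _)
      _ = _ := by rw [Finset.sum_const, SimpleGraph.card_neighborFinset_eq_degree, nsmul_eq_mul]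
  have hpair : weight γ (cross x n (x n) y) + weight γ (cross x n (x n) (x (n + 1))) ≤ Z := by
    rw [← Finset.sum_pair (f := fun z => weight γ (cross x n (x n) z)) hne]
    refine Finset.sum_le_sum_of_subset_of_nonneg ?_ fun z _ _ => (weight_pos γ _).le
    intro z hz
    rw [Finset.mem_insert, Finset.mem_singleton] at hz
    rw [SimpleGraph.mem_neighborFinset]
    rcases hz with rfl | rfl
    · exact hy
    · exact hadj
  rw [trans, if_pos hadj]
  have h1 : 1 - weight γ (cross x n (x n) (x (n + 1))) / Z =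
      (Z - weight γ (cross x n (x n) (x (n + 1)))) / Z := by
    rw [sub_div, div_self hZpos.ne']
  rw [h1]
  refine div_le_div₀ (by have := weight_pos γ (cross x n (x n) y); linarith) (by linarith)
    hZpos hZle

theorem trans_nonneg (x : ℕ → V) (n : ℕ) (y : V) : 0 ≤ trans G γ x n y := by
  unfold trans
  split_ifs with h
  · exact div_nonneg (weight_pos γ _).le (Finset.sum_nonneg fun z _ => (weight_pos γ _).le)
  · exact le_rfl

theorem trans_le_one (x : ℕ → V) (n : ℕ) (y : V) : trans G γ x n y ≤ 1 := by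
  unfold trans
  split_ifs with h
  · refine div_le_one_of_le₀ ?_ (Finset.sum_nonneg fun z _ => (weight_pos γ _).le)
    exact Finset.single_le_sum (f := fun z => weight γ (cross x n (x n) z))
      (fun z _ => (weight_pos γ _).le) (by rwa [SimpleGraph.mem_neighborFinset])
  · exact zero_le_one

/-- a path with non-summable leaving probabilities is not followed -/
theorem prob_path_eq_zero {Ω : Type*} [MeasurableSpace Ω] {P : Measure Ω} [IsProbabilityMeasure P]
    {v : V} {X : ℕ → Ω → V} (hX : IsWalk G γ v P X) (x : ℕ → V)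
    (hx : ¬ Summable fun n => 1 - trans G γ x n (x (n + 1))) :
    P {ω | ∀ k, X k ω = x k} = 0 := by
  by_contra h
  set δ := (P {ω | ∀ k, X k ω = x k}).toReal with hδ
  have hδpos : 0 < δ := ENNReal.toReal_pos h (measure_ne_top _ _)
  set a : ℕ → ℝ := fun n => (P {ω | ∀ k ≤ n, X k ω = x k}).toReal with ha
  have hδa : ∀ n, δ ≤ a n := fun n =>
    ENNReal.toReal_mono (measure_ne_top _ _) (measure_mono fun ω hω k _ => hω k)
  have ha1 : ∀ n, a n ≤ 1 := fun n => by
    have := ENNReal.toReal_mono ENNReal.one_ne_top (prob_le_one (μ := P)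
      (s := {ω | ∀ k ≤ n, X k ω = x k}))
    simpa using this
  have hstep : ∀ n, a (n + 1) = trans G γ x n (x (n + 1)) * a n := by
    intro n
    have e : {ω | ∀ k ≤ n + 1, X k ω = x k} =
        {ω | (∀ k ≤ n, X k ω = x k) ∧ X (n + 1) ω = x (n + 1)} := by
      ext ω
      constructor
      · intro h
        exact ⟨fun k hk => h k (by omega), h _ le_rfl⟩
      · rintro ⟨h1, h2⟩ k hk
        rcases Nat.lt_or_ge n k with h3 | h3
        · have : k = n + 1 := by omega
          rw [this]; exact h2
        · exact h1 k h3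
    simp only [ha]
    rw [e, hX.step, ENNReal.toReal_mul, ENNReal.toReal_ofReal (trans_nonneg G x n _)]
  apply hx
  refine summable_of_sum_range_le (c := 1 / δ)
    (fun n => sub_nonneg.2 (trans_le_one G x n _)) fun n => ?_
  have htel : δ * ∑ i ∈ Finset.range n, (1 - trans G γ x i (x (i + 1))) ≤ a 0 - a n := by
    rw [← Finset.sum_range_sub', Finset.mul_sum]
    refine Finset.sum_le_sum fun i _ => ?_
    rw [hstep]
    have h1 := sub_nonneg.2 (trans_le_one (γ := γ) G x i (x (i + 1)))
    nlinarith [hδa i]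
  rw [le_div_iff₀' hδpos]
  have := ha1 0
  have := hδa n
  linarith

omit [G.LocallyFinite] in
/-- the trapped paths form a countable set -/
theorem countable_trapped [Countable V] : {x : ℕ → V | Trapped G x}.Countable := by
  let τ := Σ m : {m : ℕ // 3 ≤ m}, (ZMod m → V) × ZMod m × Σ N : ℕ, Fin N → V
  have : ∀ m : {m : ℕ // 3 ≤ m}, Finite (ZMod m) := by
    intro m
    have : NeZero (m : ℕ) := ⟨by have := m.2; omega⟩
    infer_instance
  have hc : Countable τ := inferInstance
  let Φ : τ → ℕ → V := fun t k =>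
    if h : k < t.2.2.2.1 then t.2.2.2.2 ⟨k, h⟩ else
      t.2.1 (t.2.2.1 + ((k - t.2.2.2.1 : ℕ) : ZMod t.1))
  refine (Set.countable_range Φ).mono ?_
  rintro x ⟨m, hm, u, -, -, N, i, hx⟩
  refine ⟨⟨⟨m, hm⟩, u, i, N, fun k => x k⟩, ?_⟩
  funext k
  simp only [Φ]
  split_ifs with h
  · rfl
  · rw [← hx (k - N)]
    congr 1
    omega

/-- circuits in a connected graph that is not a cycle have a vertex of degree at least three -/
theorem exists_branch (hconn : G.Connected) (hdeg : ∃ x, G.degree x ≠ 2) {m : ℕ} (hm : 3 ≤ m)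
    (u : ZMod m → V) (hu : Function.Injective u) (hadj : ∀ i, G.Adj (u i) (u (i + 1))) :
    ∃ (i : ZMod m) (y : V), G.Adj (u i) y ∧ y ≠ u (i + 1) ∧ y ≠ u (i - 1) := by
  by_contra hcon
  push Not at hcon
  have hne : ∀ i : ZMod m, i + 1 ≠ i - 1 := by
    intro i h
    have h2 : (2 : ZMod m) = 0 := by linear_combination h
    have h3 : ((2 : ℕ) : ZMod m) = 0 := by exact_mod_cast h2
    rw [ZMod.natCast_eq_zero_iff] at h3
    have := Nat.le_of_dvd (by norm_num) h3
    omega
  have hadj' : ∀ i, G.Adj (u i) (u (i - 1)) := by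
    intro i
    have := hadj (i - 1)
    rw [sub_add_cancel] at this
    exact this.symm
  have hnb : ∀ i y, G.Adj (u i) y ↔ y = u (i + 1) ∨ y = u (i - 1) := by
    intro i y
    constructor
    · intro h
      by_cases h1 : y = u (i + 1)
      · exact Or.inl h1
      · exact Or.inr (hcon i y h h1)
    · rintro (rfl | rfl)
      · exact hadj i
      · exact hadj' i
  have hall : ∀ x, ∃ i, x = u i := by
    intro x
    obtain ⟨p⟩ := hconn.preconnected (u 0) x
    have key : ∀ {a b : V} (p : G.Walk a b), (∃ i, a = u i) → ∃ i, b = u i := by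
      intro a b p
      induction p with
      | nil => exact fun h => h
      | cons h p ih =>
        rintro ⟨i, rfl⟩
        apply ih
        rcases (hnb _ _).1 h with h1 | h1
        · exact ⟨_, h1⟩
        · exact ⟨_, h1⟩
    exact key p ⟨0, rfl⟩
  obtain ⟨x, hx⟩ := hdeg
  obtain ⟨i, rfl⟩ := hall x
  apply hx
  rw [← SimpleGraph.card_neighborFinset_eq_degree]
  have : G.neighborFinset (u i) = {u (i + 1), u (i - 1)} := by
    ext y
    rw [SimpleGraph.mem_neighborFinset, hnb, Finset.mem_insert, Finset.mem_singleton]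
  rw [this, Finset.card_pair]
  exact fun h => hne i (hu h)

theorem not_summable_one_div_add (c : ℝ) (hc : 0 < c) : ¬ Summable fun l : ℕ => c / ((l : ℝ) + 1) := by
  intro h
  have h1 := h.mul_left c⁻¹
  have h2 : Summable fun l : ℕ => 1 / ((l + 1 : ℕ) : ℝ) := by
    refine h1.congr fun l => ?_
    push_cast
    field_simp
  exact Real.not_summable_one_div_natCast ((summable_nat_add_iff 1).1 h2)

/-- leaving probabilities along a trapped path are not summable -/
theorem not_summable (hγ : 0 < γ) (hconn : G.Connected)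
    (h : γ ≤ 1 / 2 ∨ (γ ≤ 1 ∧ ∃ x, G.degree x ≠ 2)) (x : ℕ → V) (hx : Trapped G x) :
    ¬ Summable fun n => 1 - trans G γ x n (x (n + 1)) := by
  obtain ⟨m, hm, u, hu, hadj, N, i, hxu⟩ := hx
  have hNZ : NeZero m := ⟨by omega⟩
  have hadjx : ∀ j, G.Adj (x (N + j)) (x (N + j + 1)) := by
    intro j
    rw [hxu, show N + j + 1 = N + (j + 1) by ring, hxu]
    push_cast
    rw [← add_assoc]
    exact hadj _
  have hnn : ∀ n, 0 ≤ 1 - trans G γ x n (x (n + 1)) := fun n =>
    sub_nonneg.2 (trans_le_one G x n _)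
  have h2ne : (2 : ZMod m) ≠ 0 := by
    intro h2
    have h3 : ((2 : ℕ) : ZMod m) = 0 := by exact_mod_cast h2
    rw [ZMod.natCast_eq_zero_iff] at h3
    have := Nat.le_of_dvd (by norm_num) h3
    omega
  intro hs
  rcases h with h | ⟨h, hdeg⟩
  · -- the previous vertex
    set D : ℕ := ∑ j : ZMod m, G.degree (u j) with hD
    have hDle : ∀ j, G.degree (u j) ≤ D := fun j =>
      Finset.single_le_sum (f := fun j => G.degree (u j)) (fun _ _ => Nat.zero_le _)
        (Finset.mem_univ j)
    have hdpos : ∀ j, 0 < G.degree (u j) := fun j =>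
      (G.degree_pos_iff_exists_adj _).2 ⟨_, hadj j⟩
    have hDpos : 0 < D := (hdpos 0).trans_le (hDle 0)
    have hDr : (0 : ℝ) < D := by exact_mod_cast hDpos
    -- bound at time `N + l + 1`
    have hb : ∀ l : ℕ, 1 / (D * ((N : ℝ) + 1)) / ((l : ℝ) + 1) ≤
        1 - trans G γ x (N + (l + 1)) (x (N + (l + 1) + 1)) := by
      intro l
      have hn1 : 1 ≤ N + (l + 1) := by omega
      set n := N + (l + 1) with hn
      have hnr : (1 : ℝ) ≤ n := by exact_mod_cast hn1
      have hy : G.Adj (x n) (u (i + ((l + 1 : ℕ) : ZMod m) - 1)) := by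
        rw [hn, hxu]
        have := hadj (i + ((l + 1 : ℕ) : ZMod m) - 1)
        rw [sub_add_cancel] at this
        exact this.symm
      have hne : u (i + ((l + 1 : ℕ) : ZMod m) - 1) ≠ x (n + 1) := by
        rw [hn, show N + (l + 1) + 1 = N + (l + 1 + 1) by ring, hxu]
        intro he
        have he' := hu he
        apply h2ne
        push_cast at he'
        linear_combination -he'
      have h1 := one_sub_trans_ge (γ := γ) G hγ x hn1 (hadjx (l + 1)) hy hne
      refine le_trans ?_ h1
      have hw := le_weight hγ hn1 (abs_cross_le x n (x n) (u (i + ((l + 1 : ℕ) : ZMod m) - 1)))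
      have hdx : (G.degree (x n) : ℝ) ≤ D := by
        rw [hn, hxu]; exact_mod_cast hDle _
      have hdx0 : (0 : ℝ) < G.degree (x n) := by
        rw [hn, hxu]; exact_mod_cast hdpos _
      have hnγ : 0 < (n : ℝ) ^ γ := Real.rpow_pos_of_pos (by linarith) _
      calc 1 / (D * ((N : ℝ) + 1)) / ((l : ℝ) + 1)
          ≤ 1 / (D * n) := by
            rw [div_div]
            refine one_div_le_one_div_of_le (by positivity) ?_
            have : (n : ℝ) = N + (l + 1) := by rw [hn]; push_cast; ring
            rw [this, mul_assoc]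
            have hN0 : (0 : ℝ) ≤ N := Nat.cast_nonneg N
            have hl0 : (0 : ℝ) ≤ l := Nat.cast_nonneg l
            refine mul_le_mul_of_nonneg_left ?_ hDr.le
            nlinarith
        _ ≤ 1 / (D * (n : ℝ) ^ (2 * γ)) := by
            refine one_div_le_one_div_of_le (by positivity) ?_
            refine mul_le_mul_of_nonneg_left ?_ hDr.le
            calc (n : ℝ) ^ (2 * γ) ≤ (n : ℝ) ^ (1 : ℝ) :=
                  Real.rpow_le_rpow_of_exponent_le hnr (by linarith)
              _ = n := Real.rpow_one _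
        _ = (n : ℝ) ^ (-γ) / (D * (n : ℝ) ^ γ) := by
            rw [two_mul, Real.rpow_add (by linarith), Real.rpow_neg (by linarith)]
            field_simp
        _ ≤ (n : ℝ) ^ (-γ) / (G.degree (x n) * (n : ℝ) ^ γ) := by
            have hz : (0 : ℝ) ≤ (n : ℝ) ^ (-γ) := Real.rpow_nonneg (by linarith) _
            gcongr
        _ ≤ _ := by gcongr
    have hs' : Summable fun l : ℕ => 1 - trans G γ x (N + (l + 1)) (x (N + (l + 1) + 1)) :=
      hs.comp_injective (i := fun l => N + (l + 1)) fun a b hab => by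
        have : N + (a + 1) = N + (b + 1) := hab
        omega
    exact not_summable_one_div_add _ (by positivity)
      (Summable.of_nonneg_of_le (fun l => by positivity) hb hs')
  · -- a third neighbour
    obtain ⟨i0, y, hy, hy1, hy2⟩ := exists_branch G hconn hdeg hm u hu hadj
    -- the crossing number is eventually constant
    have hconst : ∀ j, cross x (N + j) (u i0) y = cross x N (u i0) y := by
      intro j
      induction j with
      | zero => rfl
      | succ j ih =>
        rw [← ih, ← add_assoc]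
        unfold cross
        rw [Finset.sum_range_succ]
        have e1 : ¬ (x (N + j) = u i0 ∧ x (N + j + 1) = y) := by
          rintro ⟨h1, h2⟩
          rw [hxu] at h1
          rw [show N + j + 1 = N + (j + 1) by ring, hxu] at h2
          have h3 := hu h1
          apply hy1
          rw [← h2, ← h3]
          push_cast
          ring_nf
        have e2 : ¬ (x (N + j) = y ∧ x (N + j + 1) = u i0) := by
          rintro ⟨h1, h2⟩
          rw [hxu] at h1
          rw [show N + j + 1 = N + (j + 1) by ring, hxu] at h2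
          have h3 := hu h2
          apply hy2
          rw [← h1, ← h3]
          push_cast
          ring_nf
        rw [if_neg e1, if_neg e2]
        simp
    set A := weight γ (cross x N (u i0) y) with hA
    have hApos : 0 < A := weight_pos γ _
    have hd0 : (0 : ℝ) < G.degree (u i0) := by
      exact_mod_cast (G.degree_pos_iff_exists_adj _).2 ⟨_, hadj i0⟩
    -- times of visits
    obtain ⟨j0, hj0⟩ : ∃ j0 : ℕ, i + (j0 : ZMod m) = i0 :=
      ⟨(i0 - i).val, by rw [ZMod.natCast_zmod_val]; ring⟩
    have hb : ∀ l : ℕ, A / (G.degree (u i0) * ((N : ℝ) + j0 + m)) / ((l : ℝ) + 1) ≤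
        1 - trans G γ x (N + (j0 + m * (l + 1))) (x (N + (j0 + m * (l + 1)) + 1)) := by
      intro l
      set j := j0 + m * (l + 1) with hj
      have hjl : j0 + m * 1 ≤ j := by
        rw [hj]; gcongr; omega
      have hn1 : 1 ≤ N + j := by omega
      set n := N + j with hn
      have hnr : (1 : ℝ) ≤ n := by exact_mod_cast hn1
      have hxn : x n = u i0 := by
        rw [hn, hxu, ← hj0, hj]
        push_cast
        rw [ZMod.natCast_self]
        simp
      have hxn1 : x (n + 1) = u (i0 + 1) := by
        rw [hn, show N + j + 1 = N + (j + 1) by ring, hxu, ← hj0, hj]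
        push_cast
        rw [ZMod.natCast_self]
        simp [add_assoc]
      have h1 := one_sub_trans_ge (γ := γ) G hγ x hn1 (hadjx j) (y := y) (by rw [hxn]; exact hy)
        (by rw [hxn1]; exact hy1)
      refine le_trans ?_ h1
      rw [hxn, hn, hconst, ← hA, ← hn]
      rw [div_div]
      have hnγ : 0 < (n : ℝ) ^ γ := Real.rpow_pos_of_pos (by linarith) _
      refine div_le_div_of_nonneg_left hApos.le (by positivity) ?_
      rw [mul_assoc]
      refine mul_le_mul_of_nonneg_left ?_ hd0.le
      calc (n : ℝ) ^ γ ≤ (n : ℝ) ^ (1 : ℝ) := Real.rpow_le_rpow_of_exponent_le hnr h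
        _ = n := Real.rpow_one _
        _ ≤ _ := by
          have : (n : ℝ) = N + (j0 + m * (l + 1)) := by rw [hn, hj]; push_cast; ring
          rw [this]
          have hN0 : (0 : ℝ) ≤ N := Nat.cast_nonneg N
          have hl0 : (0 : ℝ) ≤ l := Nat.cast_nonneg l
          have hj00 : (0 : ℝ) ≤ j0 := Nat.cast_nonneg j0
          nlinarith [mul_nonneg hN0 hl0, mul_nonneg hj00 hl0]
    have hs' : Summable fun l : ℕ =>
        1 - trans G γ x (N + (j0 + m * (l + 1))) (x (N + (j0 + m * (l + 1)) + 1)) :=
      hs.comp_injective (i := fun l => N + (j0 + m * (l + 1))) fun a b hab => by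
        have h1 : N + (j0 + m * (a + 1)) = N + (j0 + m * (b + 1)) := hab
        have h2 : m * (a + 1) = m * (b + 1) := by omega
        have h3 := Nat.eq_of_mul_eq_mul_left (by omega) h2
        omega
    refine not_summable_one_div_add _ ?_
      (Summable.of_nonneg_of_le (fun l => by positivity) hb hs')
    have : (0 : ℝ) < m := by exact_mod_cast (show 0 < m by omega)
    positivity

/-- **Theorem.** -/
theorem prob_trapped_eq_zero [Countable V] (hγ : 0 < γ) (hconn : G.Connected)
    (h : γ ≤ 1 / 2 ∨ (γ ≤ 1 ∧ ∃ x, G.degree x ≠ 2)) {Ω : Type*} [MeasurableSpace Ω]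
    {P : Measure Ω} [IsProbabilityMeasure P] {v : V} {X : ℕ → Ω → V} (hX : IsWalk G γ v P X) :
    P {ω | Trapped G fun n => X n ω} = 0 := by
  have h1 : {ω | Trapped G fun n => X n ω} ⊆
      ⋃ x ∈ {x : ℕ → V | Trapped G x}, {ω | ∀ k, X k ω = x k} := by
    intro ω hω
    exact Set.mem_biUnion (x := fun n => X n ω) hω fun k => rfl
  refine measure_mono_null h1 ((measure_biUnion_null_iff (countable_trapped G)).2 ?_)
  intro x hx
  exact prob_path_eq_zero G hX x (not_summable G hγ hconn h x hx)

/-- connected locally finite graphs are countable -/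
theorem countable_of_connected (hconn : G.Connected) : Countable V := by
  obtain ⟨v⟩ := hconn.nonempty
  let S : ℕ → Finset V := fun n =>
    Nat.rec {v} (fun _ T => T ∪ T.biUnion fun x => G.neighborFinset x) n
  have hS : ∀ n, S (n + 1) = S n ∪ (S n).biUnion fun x => G.neighborFinset x := fun n => rfl
  have hall : ∀ x, ∃ n, x ∈ S n := by
    intro x
    obtain ⟨p⟩ := hconn.preconnected v x
    have key : ∀ {a b : V} (p : G.Walk a b), (∃ n, a ∈ S n) → ∃ n, b ∈ S n := by
      intro a b p
      induction p with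
      | nil => exact fun h => h
      | cons h p ih =>
        rintro ⟨n, hn⟩
        apply ih
        refine ⟨n + 1, ?_⟩
        rw [hS, Finset.mem_union]
        exact Or.inr (Finset.mem_biUnion.2 ⟨_, hn, (G.mem_neighborFinset _ _).2 h⟩)
    exact key p ⟨0, Finset.mem_singleton_self v⟩
  rw [← Set.countable_univ_iff]
  have : (Set.univ : Set V) = ⋃ n, {x | x ∈ S n} := by
    ext x
    simp only [Set.mem_univ, Set.mem_iUnion, Set.mem_ofPred_eq, true_iff]
    exact hall x
  rw [this]
  exact Set.countable_iUnion fun n => (S n).countable_toSet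

theorem cross_congr {X X' : ℕ → V} {n : ℕ} (h : ∀ k ≤ n, X k = X' k) (x y : V) :
    cross X n x y = cross X' n x y := by
  unfold cross
  refine Finset.sum_congr rfl fun k hk => ?_
  rw [Finset.mem_range] at hk
  rw [h k (by omega), h (k + 1) (by omega)]

theorem trans_congr {X X' : ℕ → V} {n : ℕ} (h : ∀ k ≤ n, X k = X' k) (x : V) :
    trans G γ X n x = trans G γ X' n x := by
  unfold trans
  simp only [cross_congr h]
  rw [h n le_rfl]

/-- the walk exists -/
theorem exists_walk [Nontrivial V] (hconn : G.Connected) (γ : ℝ) (v : V) :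
    ∃ (_ : MeasurableSpace (ℕ → V)) (P : Measure (ℕ → V)), IsProbabilityMeasure P ∧
      IsWalk G γ v P fun n ω => ω n := by
  have hc := countable_of_connected G hconn
  have hsum : ∀ n (w : ℕ → V), ∑ x ∈ G.neighborFinset (w n),
      ENNReal.ofReal (trans G γ w n x) = 1 := by
    intro n w
    have hpos : 0 < ∑ y ∈ G.neighborFinset (w n), weight γ (cross w n (w n) y) := by
      refine Finset.sum_pos (fun z _ => weight_pos γ _) ?_
      obtain ⟨y, hy⟩ := hconn.preconnected.exists_adj_of_nontrivial (w n)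
      exact ⟨y, (G.mem_neighborFinset _ _).2 hy⟩
    rw [← ENNReal.ofReal_sum_of_nonneg fun x _ => trans_nonneg G w n x]
    have : ∑ x ∈ G.neighborFinset (w n), trans G γ w n x =
        ∑ x ∈ G.neighborFinset (w n), weight γ (cross w n (w n) x) /
          ∑ y ∈ G.neighborFinset (w n), weight γ (cross w n (w n) y) := by
      refine Finset.sum_congr rfl fun x hx => ?_
      rw [SimpleGraph.mem_neighborFinset] at hx
      rw [trans, if_pos hx]
    rw [this, ← Finset.sum_div, div_self hpos.ne', ENNReal.ofReal_one]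
  let p : ℕ → (ℕ → V) → PMF V := fun n w =>
    PMF.ofFinset (fun x => ENNReal.ofReal (trans G γ w n x)) (G.neighborFinset (w n)) (hsum n w)
      fun x hx => by
        rw [SimpleGraph.mem_neighborFinset] at hx
        rw [trans, if_neg hx, ENNReal.ofReal_zero]
  have hp : ∀ n w w', (∀ k ≤ n, w k = w' k) → p n w = p n w' := by
    intro n w w' h
    ext x
    show ENNReal.ofReal (trans G γ w n x) = ENNReal.ofReal (trans G γ w' n x)
    rw [trans_congr G h]
  obtain ⟨m, P, hP, h1, h2, h3⟩ := Process.exists_process v p hp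
  exact ⟨m, P, hP, ⟨h1, h2, h3⟩⟩

end

end Pool.Agent.V11324.Derrw
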