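import Mathlib

set_option autoImplicit false
set_option linter.unusedSectionVars false

/-! Finite-dimensional representations that converge along a symmetric adapted random walk. -/

namespace Pool.Agent.V11324.OrbitSpan

open MeasureTheory ProbabilityTheory Filter Topology
open scoped ENNReal

/-- The random walk `X 0 = 1`, `X (t + 1) = X t * U t`. -/
def walk {G Ω : Type*} [Group G] (U : ℕ → Ω → G) : ℕ → Ω → G
  | 0, _ => 1
  | t + 1, ω => walk U t ω * U t ω

section Rep

variable {G : Type*} [Group G] [TopologicalSpace G] [IsTopologicalGroup G] [MeasurableSpace G]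
  [BorelSpace G] {μ : Measure G} [IsProbabilityMeasure μ]
  {Ω : Type*} [MeasurableSpace Ω] {P : Measure Ω} [IsProbabilityMeasure P] {U : ℕ → Ω → G}
  {E : Type*} [NormedAddCommGroup E] [NormedSpace ℝ E] [FiniteDimensional ℝ E]
  [MeasurableSpace E] [BorelSpace E]

theorem meas_walk (M : G →* (E →L[ℝ] E)) (hM : Continuous M) (m : MeasurableSpace Ω) (t : ℕ)
    (hU : ∀ s < t, Measurable[m] (U s)) :
    ∀ s ≤ t, Measurable[m] fun ω => M (walk U s ω) := by
  intro s
  induction s with
  | zero =>
    intro _
    have : (fun ω => M (walk U 0 ω)) = fun _ => M 1 := rfl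
    rw [this]; exact measurable_const
  | succ s ih =>
    intro hs
    have h1 := ih (by omega)
    have h2 : Measurable[m] fun ω => M (U s ω) := hM.measurable.comp (hU s (by omega))
    have e : (fun ω => M (walk U (s + 1) ω)) = fun ω => M (walk U s ω) * M (U s ω) := by
      funext ω; rw [walk, map_mul]
    rw [e]
    exact h1.mul h2

theorem indep_walk (M : G →* (E →L[ℝ] E)) (hM : Continuous M) (hU : ∀ s, Measurable (U s))
    (hi : iIndepFun U P) (t : ℕ) : IndepFun (fun ω => M (walk U t ω)) (U t) P := by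
  have h := indep_iSup_of_disjoint (μ := P) (fun i => (hU i).comap_le) hi
    (S := Set.Iio t) (T := {t}) (by simp)
  rw [IndepFun_iff_Indep]
  refine indep_of_indep_of_le_right (indep_of_indep_of_le_left h ?_) ?_
  · have : ∀ s < t, Measurable[⨆ i ∈ Set.Iio t, MeasurableSpace.comap (U i) inferInstance]
        (U s) := by
      intro s hs
      have h1 : MeasurableSpace.comap (U s) inferInstance ≤
          ⨆ i ∈ Set.Iio t, MeasurableSpace.comap (U i) inferInstance :=
        le_iSup₂_of_le s hs le_rfl
      exact (comap_measurable (U s)).mono h1 le_rfl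
    exact (meas_walk M hM _ t this t le_rfl).comap_le
  · exact le_iSup₂_of_le t (Set.mem_singleton t) le_rfl

/-- `M (X t) u → 0` in probability -/
def Conv (P : Measure Ω) (U : ℕ → Ω → G) (M : G →* (E →L[ℝ] E)) (u : E) : Prop :=
  TendstoInMeasure P (fun t ω => M (walk U t ω) u) atTop fun _ => 0

theorem aesm (M : G →* (E →L[ℝ] E)) (hM : Continuous M) (hU : ∀ s, Measurable (U s)) (u : E)
    (t : ℕ) : AEStronglyMeasurable (fun ω => M (walk U t ω) u) P := by
  have h := meas_walk (U := U) M hM _ t (fun s _ => hU s) t le_rfl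
  exact ((ContinuousLinearMap.apply ℝ E u).continuous.measurable.comp h).aestronglyMeasurable

theorem conv_iff (M : G →* (E →L[ℝ] E)) (hM : Continuous M) (hU : ∀ s, Measurable (U s)) (u : E) :
    Conv P U M u ↔ ∀ ns : ℕ → ℕ, StrictMono ns → ∃ ns' : ℕ → ℕ, StrictMono ns' ∧
      ∀ᵐ ω ∂P, Tendsto (fun i => M (walk U (ns (ns' i)) ω) u) atTop (𝓝 0) :=
  exists_seq_tendstoInMeasure_atTop_iff (fun t => aesm M hM hU u t)

/-- simultaneous subsequences for finitely many vectors -/
theorem conv_finset (M : G →* (E →L[ℝ] E)) (hM : Continuous M) (hU : ∀ s, Measurable (U s))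
    (s : Finset E) (hs : ∀ u ∈ s, Conv P U M u) (ns : ℕ → ℕ) (hns : StrictMono ns) :
    ∃ ns' : ℕ → ℕ, StrictMono ns' ∧ ∀ᵐ ω ∂P, ∀ u ∈ s,
      Tendsto (fun i => M (walk U (ns (ns' i)) ω) u) atTop (𝓝 0) := by
  classical
  induction s using Finset.induction_on with
  | empty => exact ⟨id, strictMono_id, by simp⟩
  | insert a s _ ih =>
    obtain ⟨n1, h1, h2⟩ := ih fun u hu => hs u (Finset.mem_insert_of_mem hu)
    obtain ⟨n2, h3, h4⟩ := (conv_iff M hM hU a).1 (hs a (Finset.mem_insert_self a s)) (ns ∘ n1)
      (hns.comp h1)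
    refine ⟨n1 ∘ n2, h1.comp h3, ?_⟩
    filter_upwards [h2, h4] with ω h2 h4 u hu
    rcases Finset.mem_insert.1 hu with rfl | hu
    · exact h4
    · exact (h2 u hu).comp h3.tendsto_atTop

/-- The subspace of all `u` with `M (X t) u → 0` in probability. -/
def NN (P : Measure Ω) [IsProbabilityMeasure P] (U : ℕ → Ω → G) (hU : ∀ s, Measurable (U s))
    (M : G →* (E →L[ℝ] E)) (hM : Continuous M) : Submodule ℝ E where
  carrier := {u | Conv P U M u}
  zero_mem' := by
    rw [Set.mem_ofPred_eq, conv_iff M hM hU]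
    intro ns _
    exact ⟨id, strictMono_id, by simp⟩
  add_mem' := by
    intro u v hu hv
    rw [Set.mem_ofPred_eq, conv_iff M hM hU] at hu hv ⊢
    intro ns hns
    obtain ⟨n1, h1, h2⟩ := hu ns hns
    obtain ⟨n2, h3, h4⟩ := hv (ns ∘ n1) (hns.comp h1)
    refine ⟨n1 ∘ n2, h1.comp h3, ?_⟩
    filter_upwards [h2, h4] with ω h2 h4
    have := (h2.comp h3.tendsto_atTop).add h4
    rw [add_zero] at this
    refine this.congr fun i => ?_
    simp
  smul_mem' := by
    intro c u hu
    rw [Set.mem_ofPred_eq, conv_iff M hM hU] at hu ⊢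
    intro ns hns
    obtain ⟨n1, h1, h2⟩ := hu ns hns
    refine ⟨n1, h1, ?_⟩
    filter_upwards [h2] with ω h2
    have := h2.const_smul c
    rw [smul_zero] at this
    refine this.congr fun i => ?_
    simp

theorem mem_NN (hU : ∀ s, Measurable (U s)) (M : G →* (E →L[ℝ] E)) (hM : Continuous M) (u : E) :
    u ∈ NN P U hU M hM ↔ Conv P U M u := Iff.rfl

/-- existence of a smallest subspace of full measure -/
theorem exists_support (ξ : G → E) : ∃ S : Submodule ℝ E, (∀ᵐ g ∂μ, ξ g ∈ S) ∧
    ∀ T : Submodule ℝ E, (∀ᵐ g ∂μ, ξ g ∈ T) → S ≤ T := by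
  obtain ⟨S, hS, hmin⟩ := WellFounded.has_min (wellFounded_lt (α := Submodule ℝ E))
    {T : Submodule ℝ E | ∀ᵐ g ∂μ, ξ g ∈ T} ⟨⊤, by simp⟩
  refine ⟨S, hS, fun T hT => ?_⟩
  have h1 : (S ⊓ T) ∈ {T : Submodule ℝ E | ∀ᵐ g ∂μ, ξ g ∈ T} := by
    have hS' : ∀ᵐ g ∂μ, ξ g ∈ S := hS
    show ∀ᵐ g ∂μ, ξ g ∈ S ⊓ T
    filter_upwards [hS', hT] with g h h'
    exact ⟨h, h'⟩
  have h2 := hmin _ h1
  have h3 : S ⊓ T = S := by
    by_contra hne
    exact h2 (lt_of_le_of_ne inf_le_left hne)
  exact inf_eq_left.1 h3

theorem key (hU : ∀ s, Measurable (U s)) (hi : iIndepFun U P) (hlaw : ∀ s, P.map (U s) = μ)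
    (M : G →* (E →L[ℝ] E)) (hM : Continuous M) (ξ : G → E) (hξ : Measurable ξ)
    (hc : TendstoInMeasure P (fun t ω => M (walk U t ω) (ξ (U t ω))) atTop fun _ => 0) :
    ∀ᵐ g ∂μ, ξ g ∈ NN P U hU M hM := by
  obtain ⟨S, hS, hmin⟩ := exists_support (μ := μ) ξ
  suffices h : S ≤ NN P U hU M hM by
    filter_upwards [hS] with g hg
    exact h hg
  intro u hu
  rw [mem_NN, conv_iff M hM hU]
  intro ns hns
  -- convergence in measure on the product
  have hprod : TendstoInMeasure (P.prod μ) (fun t p => M (walk U t p.1) (ξ p.2)) atTop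
      fun _ => 0 := by
    intro ε hε
    refine (hc ε hε).congr fun t => ?_
    have hA : Measurable fun ω => M (walk U t ω) :=
      meas_walk (U := U) M hM _ t (fun s _ => hU s) t le_rfl
    have hξU : Measurable fun ω => ξ (U t ω) := hξ.comp (hU t)
    have happ : Measurable fun q : (E →L[ℝ] E) × E => q.1 q.2 :=
      isBoundedBilinearMap_apply.continuous.measurable
    have hB : MeasurableSet {q : (E →L[ℝ] E) × E | ε ≤ edist (q.1 q.2) 0} :=
      measurableSet_le measurable_const (happ.edist measurable_const)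
    have e1 : P {ω | ε ≤ edist (M (walk U t ω) (ξ (U t ω))) 0} =
        P.map (fun ω => (M (walk U t ω), ξ (U t ω)))
          {q : (E →L[ℝ] E) × E | ε ≤ edist (q.1 q.2) 0} := by
      rw [Measure.map_apply (hA.prodMk hξU) hB]; rfl
    have e2 : (P.prod μ) {p | ε ≤ edist (M (walk U t p.1) (ξ p.2)) 0} =
        ((P.prod μ).map (Prod.map (fun ω => M (walk U t ω)) ξ))
          {q : (E →L[ℝ] E) × E | ε ≤ edist (q.1 q.2) 0} := by
      rw [Measure.map_apply (hA.prodMap hξ) hB]; rfl
    have e3 : P.map (fun ω => (M (walk U t ω), ξ (U t ω))) =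
        (P.prod μ).map (Prod.map (fun ω => M (walk U t ω)) ξ) := by
      have hind : IndepFun (fun ω => M (walk U t ω)) (fun ω => ξ (U t ω)) P :=
        (indep_walk M hM hU hi t).comp measurable_id hξ
      rw [hind.map_prod_eq_prod_map_map hA.aemeasurable hξU.aemeasurable,
        ← Measure.map_prod_map _ _ hA hξ]
      congr 1
      rw [← hlaw t, Measure.map_map hξ (hU t)]
      rfl
    rw [e1, e2, e3]
  obtain ⟨ns', h1, h2⟩ := (hprod.comp hns.tendsto_atTop).exists_seq_tendsto_ae
  refine ⟨ns', h1, ?_⟩
  filter_upwards [Measure.ae_ae_of_ae_prod h2] with ω hω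
  -- the subspace of convergence
  let T : Submodule ℝ E :=
    { carrier := {u | Tendsto (fun i => M (walk U (ns (ns' i)) ω) u) atTop (𝓝 0)}
      zero_mem' := by simp
      add_mem' := by
        intro a b ha hb
        have := Tendsto.add ha hb
        rw [add_zero] at this
        simpa using this
      smul_mem' := by
        intro c a ha
        have := Tendsto.const_smul ha c
        rw [smul_zero] at this
        simpa using this }
  have hT : S ≤ T := hmin T (by
    filter_upwards [hω] with g hg
    exact hg)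
  exact hT hu

/-- the symmetric law: a property that holds almost everywhere holds for inverses -/
theorem ae_inv (hsymm : μ.map (fun g => g⁻¹) = μ) (p : G → Prop) (h : ∀ᵐ g ∂μ, p g) :
    ∀ᵐ g ∂μ, p g⁻¹ := by
  rw [← hsymm] at h
  exact ae_of_ae_map measurable_inv.aemeasurable h

/-- `NN` is invariant -/
theorem invariant (hU : ∀ s, Measurable (U s)) (hi : iIndepFun U P) (hlaw : ∀ s, P.map (U s) = μ)
    (hsymm : μ.map (fun g => g⁻¹) = μ)
    (hadapted : ∀ H : Subgroup G, IsClosed (H : Set G) → μ (H : Set G)ᶜ = 0 → H = ⊤)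
    (M : G →* (E →L[ℝ] E)) (hM : Continuous M) (g : G) (u : E)
    (hu : u ∈ NN P U hU M hM) : M g u ∈ NN P U hU M hM := by
  set N := NN P U hU M hM with hN
  have hMv : ∀ v : E, Continuous fun g => M g v := fun v =>
    (ContinuousLinearMap.apply ℝ E v).continuous.comp hM
  -- for almost every `g` all of `N` is mapped to `N`
  have h1 : ∀ v ∈ N, ∀ᵐ g ∂μ, M g v ∈ N := by
    intro v hv
    refine key hU hi hlaw M hM (fun g => M g v) (hMv v).measurable ?_
    have hv' : TendstoInMeasure P (fun t ω => M (walk U t ω) v) atTop fun _ => 0 := hv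
    have h2 := hv'.comp (tendsto_add_atTop_nat 1)
    have e : ((fun t ω => M (walk U t ω) v) ∘ fun a => a + 1) =
        fun t ω => M (walk U t ω) (M (U t ω) v) := by
      funext t ω
      simp only [Function.comp_apply, walk, map_mul]
      rfl
    rw [e] at h2
    exact h2
  have h2 : ∀ᵐ g ∂μ, ∀ v ∈ N, M g v ∈ N := by
    let b := Module.finBasis ℝ N
    have h3 : ∀ᵐ g ∂μ, ∀ i, M g (b i : E) ∈ N := by
      rw [ae_all_iff]
      exact fun i => h1 _ (b i).2
    filter_upwards [h3] with g hg v hv
    have h4 : v = ∑ i, b.repr ⟨v, hv⟩ i • (b i : E) := by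
      have h5 : ((∑ i, b.repr ⟨v, hv⟩ i • b i : N) : E) = v := by rw [b.sum_repr]
      have h6 : ((∑ i, b.repr ⟨v, hv⟩ i • b i : N) : E) =
          ∑ i, b.repr ⟨v, hv⟩ i • (b i : E) := by
        rw [Submodule.coe_sum]; rfl
      exact h5.symm.trans h6
    rw [h4, map_sum]
    exact N.sum_mem fun i _ => by rw [map_smul]; exact N.smul_mem _ (hg i)
  have h3 := ae_inv hsymm _ h2
  let H : Subgroup G :=
    { carrier := {g | (∀ v ∈ N, M g v ∈ N) ∧ ∀ v ∈ N, M g⁻¹ v ∈ N}
      one_mem' := by constructor <;> intro v hv <;> simpa using hv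
      mul_mem' := by
        rintro a b ⟨ha, ha'⟩ ⟨hb, hb'⟩
        constructor
        · intro v hv
          rw [map_mul]
          exact ha _ (hb _ hv)
        · intro v hv
          rw [mul_inv_rev, map_mul]
          exact hb' _ (ha' _ hv)
      inv_mem' := by
        rintro a ⟨ha, ha'⟩
        exact ⟨ha', by rw [inv_inv]; exact ha⟩ }
  have hcl : IsClosed (N : Set E) := N.closed_of_finiteDimensional
  have hHcl : IsClosed (H : Set G) := by
    have e : (H : Set G) = (⋂ v ∈ N, {g | M g v ∈ (N : Set E)}) ∩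
        ⋂ v ∈ N, {g | M g⁻¹ v ∈ (N : Set E)} := by
      ext g
      simp only [Set.mem_inter_iff, Set.mem_iInter, Set.mem_ofPred_eq, SetLike.mem_coe]
      rfl
    rw [e]
    refine IsClosed.inter (isClosed_biInter fun v _ => hcl.preimage (hMv v))
      (isClosed_biInter fun v _ => hcl.preimage ((hMv v).comp continuous_inv))
  have hH : H = ⊤ := hadapted H hHcl (by
    have : ∀ᵐ g ∂μ, g ∈ H := by
      filter_upwards [h2, h3] with g hg hg'
      exact ⟨hg, hg'⟩
    exact this)
  have : g ∈ H := by rw [hH]; exact Subgroup.mem_top g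
  exact this.1 u hu

/-- a sum of i.i.d. symmetric real variables is nonnegative with probability at least one half -/
theorem half_le (Y : ℕ → Ω → ℝ) (hY : ∀ s, Measurable (Y s)) (hi : iIndepFun Y P) (ν : Measure ℝ)
    (hlaw : ∀ s, P.map (Y s) = ν) (hν : ν.map (fun x => -x) = ν) (t : ℕ) :
    1 / 2 ≤ P {ω | 0 ≤ ∑ s ∈ Finset.range t, Y s ω} := by
  have hmeas : ∀ t, Measurable fun ω => ∑ s ∈ Finset.range t, Y s ω := fun t =>
    Finset.measurable_sum _ fun s _ => hY s
  have hsym : ∀ t, (P.map fun ω => ∑ s ∈ Finset.range t, Y s ω).map (fun x => -x) =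
      P.map fun ω => ∑ s ∈ Finset.range t, Y s ω := by
    intro t
    induction t with
    | zero =>
      simp only [Finset.range_zero, Finset.sum_empty, Measure.map_const, measure_univ, one_smul]
      rw [Measure.map_dirac' measurable_neg]
      simp
    | succ t ih =>
      have hind : IndepFun (fun ω => ∑ s ∈ Finset.range t, Y s ω) (Y t) P := by
        have := hi.indepFun_finsetSum_of_notMem hY (s := Finset.range t) (i := t) (by simp)
        convert this using 1
        funext ω; simp
      have e : (fun ω => ∑ s ∈ Finset.range (t + 1), Y s ω) =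
          (fun q : ℝ × ℝ => q.1 + q.2) ∘
            fun ω => (∑ s ∈ Finset.range t, Y s ω, Y t ω) := by
        funext ω; simp [Finset.sum_range_succ]
      have hadd : Measurable fun q : ℝ × ℝ => q.1 + q.2 := measurable_fst.add measurable_snd
      rw [e, ← Measure.map_map hadd ((hmeas t).prodMk (hY t)),
        hind.map_prod_eq_prod_map_map (hmeas t).aemeasurable (hY t).aemeasurable]
      have h1 : (((P.map fun ω => ∑ s ∈ Finset.range t, Y s ω).prod (P.map (Y t))).map
          (Prod.map (fun x : ℝ => -x) (fun x : ℝ => -x))) =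
          (P.map fun ω => ∑ s ∈ Finset.range t, Y s ω).prod (P.map (Y t)) := by
        have : IsProbabilityMeasure (P.map fun ω => ∑ s ∈ Finset.range t, Y s ω) :=
          Measure.isProbabilityMeasure_map (hmeas t).aemeasurable
        have : IsProbabilityMeasure (P.map (Y t)) :=
          Measure.isProbabilityMeasure_map (hY t).aemeasurable
        rw [← Measure.map_prod_map _ _ measurable_neg measurable_neg, ih, hlaw t, hν]
      nth_rewrite 2 [← h1]
      rw [Measure.map_map measurable_neg hadd, Measure.map_map hadd (by fun_prop)]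
      congr 1
      funext q
      simp only [Function.comp_apply, Prod.map_fst, Prod.map_snd]
      ring
  have h0 : MeasurableSet {x : ℝ | 0 ≤ x} := measurableSet_Ici
  have e1 : P {ω | 0 ≤ ∑ s ∈ Finset.range t, Y s ω} =
      (P.map fun ω => ∑ s ∈ Finset.range t, Y s ω) {x : ℝ | 0 ≤ x} := by
    rw [Measure.map_apply (hmeas t) h0]; rfl
  have e2 : P {ω | ∑ s ∈ Finset.range t, Y s ω ≤ 0} =
      (P.map fun ω => ∑ s ∈ Finset.range t, Y s ω) {x : ℝ | 0 ≤ x} := by
    rw [← hsym t, Measure.map_map measurable_neg (hmeas t),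
      Measure.map_apply (measurable_neg.comp (hmeas t)) h0]
    congr 1
    ext ω
    simp
  have h1 : (1 : ℝ≥0∞) ≤ P {ω | 0 ≤ ∑ s ∈ Finset.range t, Y s ω} +
      P {ω | ∑ s ∈ Finset.range t, Y s ω ≤ 0} := by
    calc (1 : ℝ≥0∞) = P Set.univ := measure_univ.symm
      _ ≤ P ({ω | 0 ≤ ∑ s ∈ Finset.range t, Y s ω} ∪
          {ω | ∑ s ∈ Finset.range t, Y s ω ≤ 0}) :=
          measure_mono fun ω _ => (le_total 0 (∑ s ∈ Finset.range t, Y s ω))
      _ ≤ _ := measure_union_le _ _
  rw [e2, ← e1, ← two_mul] at h1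
  rw [ENNReal.div_le_iff (by norm_num) (by norm_num), mul_comm]
  exact h1

/-- the subspace `NN` is trivial -/
theorem NN_eq_bot (hU : ∀ s, Measurable (U s)) (hi : iIndepFun U P)
    (hlaw : ∀ s, P.map (U s) = μ) (hsymm : μ.map (fun g => g⁻¹) = μ)
    (hadapted : ∀ H : Subgroup G, IsClosed (H : Set G) → μ (H : Set G)ᶜ = 0 → H = ⊤)
    (M : G →* (E →L[ℝ] E)) (hM : Continuous M) : NN P U hU M hM = ⊥ := by
  by_contra hbot
  have hinv := invariant hU hi hlaw hsymm hadapted M hM
  set N := NN P U hU M hM with hN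
  have hMv : ∀ v : E, Continuous fun g => M g v := fun v =>
    (ContinuousLinearMap.apply ℝ E v).continuous.comp hM
  -- restriction to `N`
  let ρ : G →* Module.End ℝ N :=
    { toFun := fun g => ((M g : E →L[ℝ] E) : E →ₗ[ℝ] E).restrict (p := N) (q := N)
        fun v hv => hinv g v hv
      map_one' := by ext v; simp
      map_mul' := by intro a b; ext v; simp }
  have hρ : ∀ g (v : N), ((ρ g v : N) : E) = M g v := fun g v => rfl
  let D : G → ℝ := fun g => LinearMap.det (ρ g)
  have hDmul : ∀ a b, D (a * b) = D a * D b := by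
    intro a b
    simp only [D, map_mul]
  have hD1 : D 1 = 1 := by simp only [D, map_one]
  have hDinv : ∀ a, D a * D a⁻¹ = 1 := fun a => by rw [← hDmul, mul_inv_cancel, hD1]
  have hD0 : ∀ a, D a ≠ 0 := fun a h => by
    have := hDinv a; rw [h, zero_mul] at this; exact zero_ne_one this
  -- a basis
  let b := Module.finBasis ℝ N
  have hdet : ∀ g, D g = (LinearMap.toMatrix b b (ρ g)).det := fun g =>
    (LinearMap.det_toMatrix b (ρ g)).symm
  have hdim : 0 < Module.finrank ℝ N := by
    rw [Module.finrank_pos_iff]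
    exact Submodule.nontrivial_iff_ne_bot.2 hbot
  have : Nonempty (Fin (Module.finrank ℝ N)) := ⟨⟨0, hdim⟩⟩
  have hrepr : Continuous fun v : N => (b.equivFun v : Fin (Module.finrank ℝ N) → ℝ) :=
    b.equivFun.toLinearMap.continuous_of_finiteDimensional
  have hentry : ∀ g i j, LinearMap.toMatrix b b (ρ g) i j = b.equivFun (ρ g (b j)) i := by
    intro g i j
    rw [LinearMap.toMatrix_apply]; rfl
  have hDcont : Continuous D := by
    have e : D = fun g => (LinearMap.toMatrix b b (ρ g)).det := funext hdet
    rw [e]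
    refine Continuous.matrix_det (continuous_matrix fun i j => ?_)
    simp only [hentry]
    refine (continuous_apply i).comp (hrepr.comp ?_)
    refine Continuous.subtype_mk (f := fun g => M g (b j : E)) (hMv _) _
  -- convergence to zero of the determinants along a subsequence
  classical
  have hconv : ∀ j, Conv P U M (b j : E) := fun j => (b j).2
  obtain ⟨ns, hns, hae⟩ := conv_finset (P := P) M hM hU
    (Finset.univ.image fun j => (b j : E)) (by
      intro u hu
      obtain ⟨j, -, rfl⟩ := Finset.mem_image.1 hu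
      exact hconv j) id strictMono_id
  have hDto : ∀ᵐ ω ∂P, Tendsto (fun i => D (walk U (ns i) ω)) atTop (𝓝 0) := by
    filter_upwards [hae] with ω hω
    have h1 : ∀ j, Tendsto (fun i => ρ (walk U (ns i) ω) (b j)) atTop (𝓝 0) := by
      intro j
      rw [tendsto_subtype_rng]
      exact hω _ (Finset.mem_image_of_mem _ (Finset.mem_univ j))
    have h2 : Tendsto (fun i => LinearMap.toMatrix b b (ρ (walk U (ns i) ω))) atTop
        (𝓝 (0 : Matrix (Fin (Module.finrank ℝ N)) (Fin (Module.finrank ℝ N)) ℝ)) := by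
      refine tendsto_pi_nhds.2 fun i => tendsto_pi_nhds.2 fun j => ?_
      simp only [hentry]
      have h3 := ((continuous_apply i).comp hrepr).tendsto (0 : N)
      simp only [Function.comp_apply, map_zero, Pi.zero_apply] at h3
      exact h3.comp (h1 j)
    have h3 := (continuous_id.matrix_det (n := Fin (Module.finrank ℝ N)) (R := ℝ)).tendsto
      (0 : Matrix (Fin (Module.finrank ℝ N)) (Fin (Module.finrank ℝ N)) ℝ)
    simp only [id_eq, Matrix.det_zero] at h3
    simp only [hdet]
    exact h3.comp h2
  -- the logarithm of the determinant is a symmetric random walk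
  let Y : ℕ → Ω → ℝ := fun s ω => Real.log |D (U s ω)|
  have hψ : Measurable fun g => Real.log |D g| :=
    Real.measurable_log.comp (hDcont.abs.measurable)
  have hYm : ∀ s, Measurable (Y s) := fun s => hψ.comp (hU s)
  have hYi : iIndepFun Y P := hi.comp (fun _ => fun g => Real.log |D g|) fun _ => hψ
  have hlog : ∀ t ω, Real.log |D (walk U t ω)| = ∑ s ∈ Finset.range t, Y s ω := by
    intro t ω
    induction t with
    | zero => simp [walk, hD1]
    | succ t ih =>
      rw [walk, hDmul, abs_mul, Real.log_mul (abs_ne_zero.2 (hD0 _)) (abs_ne_zero.2 (hD0 _)), ih,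
        Finset.sum_range_succ]
  have hhalf : ∀ t, 1 / 2 ≤ P {ω | 1 ≤ |D (walk U t ω)|} := by
    intro t
    have h := half_le Y hYm hYi (μ.map fun g => Real.log |D g|) (fun s => by
      rw [← hlaw s, Measure.map_map hψ (hU s)]; rfl) (by
      rw [Measure.map_map measurable_neg hψ]
      have e : ((fun x : ℝ => -x) ∘ fun g => Real.log |D g|) =
          (fun g => Real.log |D g|) ∘ fun g => g⁻¹ := by
        funext g
        simp only [Function.comp_apply]
        have h1 : |D g| * |D g⁻¹| = 1 := by rw [← abs_mul, hDinv, abs_one]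
        have h2 := Real.log_mul (abs_ne_zero.2 (hD0 g)) (abs_ne_zero.2 (hD0 g⁻¹))
        rw [h1, Real.log_one] at h2
        linarith
      rw [e, ← Measure.map_map hψ measurable_inv]
      congr 1) t
    refine h.trans (measure_mono fun ω hω => ?_)
    have h1 : 0 ≤ Real.log |D (walk U t ω)| := by rw [hlog]; exact hω
    exact (Real.log_nonneg_iff (abs_pos.2 (hD0 _))).1 h1
  -- contradiction
  have hDm : ∀ t, Measurable fun ω => |D (walk U t ω)| := by
    intro t
    have e : (fun ω => |D (walk U t ω)|) = fun ω => Real.exp (∑ s ∈ Finset.range t, Y s ω) := by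
      funext ω
      rw [← hlog, Real.exp_log (abs_pos.2 (hD0 _))]
    rw [e]
    exact Real.measurable_exp.comp (Finset.measurable_sum _ fun s _ => hYm s)
  have hmeasure : TendstoInMeasure P (fun i ω => |D (walk U (ns i) ω)|) atTop fun _ => 0 := by
    refine tendstoInMeasure_of_tendsto_ae (fun i => (hDm _).aestronglyMeasurable) ?_
    filter_upwards [hDto] with ω hω
    simpa using hω.abs
  have h0 := (tendstoInMeasure_iff_norm.1 hmeasure) 1 one_pos
  have h1 : (1 / 2 : ℝ≥0∞) ≤ 0 := by
    refine ge_of_tendsto h0 (Eventually.of_forall fun i => (hhalf (ns i)).trans ?_)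
    refine measure_mono fun ω hω => ?_
    have : (1 : ℝ) ≤ |D (walk U (ns i) ω)| := hω
    simpa using this
  simp at h1

/-- **Main lemma.** A vector that converges along the random walk is invariant. -/
theorem fixed (hU : ∀ s, Measurable (U s)) (hi : iIndepFun U P)
    (hlaw : ∀ s, P.map (U s) = μ) (hsymm : μ.map (fun g => g⁻¹) = μ)
    (hadapted : ∀ H : Subgroup G, IsClosed (H : Set G) → μ (H : Set G)ᶜ = 0 → H = ⊤)
    (M : G →* (E →L[ℝ] E)) (hM : Continuous M) (w : E)
    (hw : ∀ᵐ ω ∂P, ∃ l, Tendsto (fun t => M (walk U t ω) w) atTop (𝓝 l)) (g : G) :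
    M g w = w := by
  have hbot := NN_eq_bot hU hi hlaw hsymm hadapted M hM
  have hMv : Continuous fun g => M g w :=
    (ContinuousLinearMap.apply ℝ E w).continuous.comp hM
  have h1 : ∀ᵐ g ∂μ, M g w - w ∈ NN P U hU M hM := by
    refine key hU hi hlaw M hM (fun g => M g w - w) (hMv.sub continuous_const).measurable ?_
    have e : (fun t ω => M (walk U t ω) (M (U t ω) w - w)) =
        fun t ω => M (walk U (t + 1) ω) w - M (walk U t ω) w := by
      funext t ω
      rw [walk, map_mul, map_sub]
      rfl
    rw [e]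
    refine tendstoInMeasure_of_tendsto_ae
      (fun t => (aesm M hM hU w (t + 1)).sub (aesm M hM hU w t)) ?_
    filter_upwards [hw] with ω hω
    obtain ⟨l, hl⟩ := hω
    have := ((tendsto_add_atTop_iff_nat 1).2 hl).sub hl
    rwa [sub_self] at this
  let H : Subgroup G :=
    { carrier := {g | M g w = w}
      one_mem' := by simp
      mul_mem' := by
        intro a b ha hb
        have ha' : M a w = w := ha
        have hb' : M b w = w := hb
        show M (a * b) w = w
        rw [map_mul]
        show M a (M b w) = w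
        rw [hb', ha']
      inv_mem' := by
        intro a ha
        have ha' : M a w = w := ha
        show M a⁻¹ w = w
        have h2 : M a⁻¹ (M a w) = w := by
          have : (M a⁻¹ * M a) w = w := by rw [← map_mul, inv_mul_cancel, map_one]; rfl
          exact this
        rwa [ha'] at h2 }
  have hH : H = ⊤ := hadapted H (isClosed_eq hMv continuous_const) (by
    have : ∀ᵐ g ∂μ, g ∈ H := by
      filter_upwards [h1] with g hg
      rw [hbot, Submodule.mem_bot, sub_eq_zero] at hg
      exact hg
    exact this)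
  have : g ∈ H := by rw [hH]; exact Subgroup.mem_top g
  exact this

end Rep

section Functions

variable {G : Type*} [Group G] [TopologicalSpace G] [IsTopologicalGroup G] [MeasurableSpace G]
  [BorelSpace G] {μ : Measure G} [IsProbabilityMeasure μ]
  {Ω : Type*} [MeasurableSpace Ω] {P : Measure Ω} [IsProbabilityMeasure P] {U : ℕ → Ω → G}

/-- the span of the translates `x ↦ f (γ⁻¹ x)` -/
def orbitSpan {G : Type*} [Group G] (f : G → ℝ) : Submodule ℝ (G → ℝ) :=
  Submodule.span ℝ (Set.range fun γ : G => fun x => f (γ⁻¹ * x))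

theorem translate_mem (f : G → ℝ) (g : G) (h : G → ℝ) (hh : h ∈ orbitSpan f) :
    (fun x => h (g * x)) ∈ orbitSpan f := by
  unfold orbitSpan at hh ⊢
  induction hh using Submodule.span_induction with
  | mem h hh =>
    obtain ⟨γ, rfl⟩ := hh
    refine Submodule.subset_span ⟨g⁻¹ * γ, ?_⟩
    funext x
    simp [mul_assoc]
  | zero => exact Submodule.zero_mem _
  | add a b _ _ ha hb => exact Submodule.add_mem _ ha hb
  | smul c a _ ha => exact Submodule.smul_mem _ c ha

theorem continuous_of_mem (f : G → ℝ) (hf : Continuous f) (h : G → ℝ) (hh : h ∈ orbitSpan f) :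
    Continuous h := by
  unfold orbitSpan at hh
  induction hh using Submodule.span_induction with
  | mem h hh =>
    obtain ⟨γ, rfl⟩ := hh
    exact hf.comp (continuous_const.mul continuous_id)
  | zero => exact continuous_const
  | add a b _ _ ha hb => exact ha.add hb
  | smul c a _ ha => exact ha.const_smul c

theorem converges_of_mem (f : G → ℝ)
    (hconv : ∀ x, ∀ᵐ ω ∂P, ∃ l, Tendsto (fun t => f (x * walk U t ω)) atTop (𝓝 l))
    (h : G → ℝ) (hh : h ∈ orbitSpan f) :
    ∀ᵐ ω ∂P, ∃ l, Tendsto (fun t => h (walk U t ω)) atTop (𝓝 l) := by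
  unfold orbitSpan at hh
  induction hh using Submodule.span_induction with
  | mem h hh =>
    obtain ⟨γ, rfl⟩ := hh
    exact hconv γ⁻¹
  | zero => exact Eventually.of_forall fun ω => ⟨0, tendsto_const_nhds⟩
  | add a b _ _ ha hb =>
    filter_upwards [ha, hb] with ω ha hb
    obtain ⟨l, hl⟩ := ha
    obtain ⟨l', hl'⟩ := hb
    exact ⟨l + l', hl.add hl'⟩
  | smul c a _ ha =>
    filter_upwards [ha] with ω ha
    obtain ⟨l, hl⟩ := ha
    exact ⟨c • l, hl.const_smul c⟩

theorem mem_self (f : G → ℝ) : f ∈ orbitSpan f :=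
  Submodule.subset_span ⟨1, by funext x; simp⟩

/-- **Theorem.** A continuous function that converges along a symmetric adapted random walk and has
a finite-dimensional orbit span is constant. -/
theorem constant (hU : ∀ s, Measurable (U s)) (hi : iIndepFun U P)
    (hlaw : ∀ s, P.map (U s) = μ) (hsymm : μ.map (fun g => g⁻¹) = μ)
    (hadapted : ∀ H : Subgroup G, IsClosed (H : Set G) → μ (H : Set G)ᶜ = 0 → H = ⊤)
    (f : G → ℝ) (hf : Continuous f)
    (hconv : ∀ x, ∀ᵐ ω ∂P, ∃ l, Tendsto (fun t => f (x * walk U t ω)) atTop (𝓝 l))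
    (hfin : FiniteDimensional ℝ (orbitSpan f)) (x : G) : f x = f 1 := by
  let b := Module.finBasis ℝ (orbitSpan f)
  set n := Module.finrank ℝ (orbitSpan f) with hn
  -- evaluation vector
  let F : G → (Fin n → ℝ) := fun x i => (b i : G → ℝ) x
  have hFc : Continuous F := continuous_pi fun i => continuous_of_mem f hf _ (b i).2
  -- the translation operator
  let L : G → Module.End ℝ (orbitSpan f) := fun g =>
    { toFun := fun h => ⟨fun x => (h : G → ℝ) (g * x), translate_mem f g h h.2⟩
      map_add' := by intro a b; rfl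
      map_smul' := by intro c a; rfl }
  have hLmul : ∀ g h, L (g * h) = L h * L g := by
    intro g h
    ext v x
    show (v : G → ℝ) (g * h * x) = (v : G → ℝ) (g * (h * x))
    rw [mul_assoc]
  have hL1 : L 1 = 1 := by
    ext v x
    show (v : G → ℝ) (1 * x) = (v : G → ℝ) x
    rw [one_mul]
  let M0 : G → ((Fin n → ℝ) →L[ℝ] (Fin n → ℝ)) := fun g =>
    LinearMap.toContinuousLinearMap (Matrix.toLin' (LinearMap.toMatrix b b (L g)).transpose)
  have hM0 : ∀ g v, M0 g v = (LinearMap.toMatrix b b (L g)).transpose.mulVec v := by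
    intro g v
    simp [M0]
  let M : G →* ((Fin n → ℝ) →L[ℝ] (Fin n → ℝ)) :=
    { toFun := M0
      map_one' := by
        refine ContinuousLinearMap.ext fun v => ?_
        rw [hM0, hL1]
        have : LinearMap.toMatrix b b (1 : Module.End ℝ (orbitSpan f)) = 1 :=
          LinearMap.toMatrix_one b
        rw [this]
        simp
      map_mul' := by
        intro g h
        refine ContinuousLinearMap.ext fun v => ?_
        show M0 (g * h) v = M0 g (M0 h v)
        rw [hM0, hM0, hM0, hLmul]
        have : LinearMap.toMatrix b b (L h * L g) =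
            LinearMap.toMatrix b b (L h) * LinearMap.toMatrix b b (L g) :=
          LinearMap.toMatrix_mul b _ _
        rw [this, Matrix.transpose_mul, Matrix.mulVec_mulVec] }
  have hMF : ∀ g y, M g (F y) = F (g * y) := by
    intro g y
    show M0 g (F y) = F (g * y)
    rw [hM0]
    funext j
    have h1 : L g (b j) = ∑ i, LinearMap.toMatrix b b (L g) i j • b i := by
      conv_lhs => rw [← b.sum_repr (L g (b j))]
      exact Finset.sum_congr rfl fun i _ => by rw [LinearMap.toMatrix_apply]
    have h2 : F (g * y) j = ((L g (b j) : orbitSpan f) : G → ℝ) y := rfl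
    rw [h2, h1]
    simp only [Matrix.mulVec, dotProduct, Matrix.transpose_apply]
    rw [Submodule.coe_sum, Finset.sum_apply]
    rfl
  -- the evaluation vectors span
  have hspan : Submodule.span ℝ (Set.range F) = ⊤ := by
    by_contra hne
    obtain ⟨φ, hφ, hker⟩ := Submodule.exists_le_ker_of_lt_top _ (lt_top_iff_ne_top.2 hne)
    apply hφ
    have hφ' : ∀ v : Fin n → ℝ, φ v = ∑ i, v i * φ (Pi.single i 1) := by
      intro v
      have e : v = ∑ i, v i • (Pi.single i 1 : Fin n → ℝ) := by
        funext j
        simp [Finset.sum_apply, Pi.single_apply]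
      conv_lhs => rw [e]
      rw [map_sum]
      exact Finset.sum_congr rfl fun i _ => by rw [map_smul]; rfl
    have h0 : ∑ i, φ (Pi.single i 1) • b i = 0 := by
      apply Subtype.ext
      funext y
      have h1 : φ (F y) = 0 := hker (Submodule.subset_span ⟨y, rfl⟩)
      rw [hφ'] at h1
      rw [Submodule.coe_sum, Finset.sum_apply]
      show ∑ i, φ (Pi.single i 1) * (b i : G → ℝ) y = 0
      rw [← h1]
      exact Finset.sum_congr rfl fun i _ => mul_comm _ _
    have h2 := Fintype.linearIndependent_iff.1 b.linearIndependent _ h0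
    refine LinearMap.ext fun v => ?_
    rw [hφ']
    simp [h2]
  have hM : Continuous M := by
    rw [continuous_clm_apply]
    intro v
    have hv : v ∈ Submodule.span ℝ (Set.range F) := by rw [hspan]; exact Submodule.mem_top
    induction hv using Submodule.span_induction with
    | mem v hv =>
      obtain ⟨y, rfl⟩ := hv
      simp only [hMF]
      exact hFc.comp (continuous_id.mul continuous_const)
    | zero => simp only [map_zero]; exact continuous_const
    | add a b _ _ ha hb => simp only [map_add]; exact ha.add hb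
    | smul c a _ ha => simp only [map_smul]; exact ha.const_smul c
  have hw : ∀ᵐ ω ∂P, ∃ l, Tendsto (fun t => M (walk U t ω) (F 1)) atTop (𝓝 l) := by
    have h1 : ∀ᵐ ω ∂P, ∀ i, ∃ l, Tendsto (fun t => (b i : G → ℝ) (walk U t ω)) atTop (𝓝 l) := by
      rw [ae_all_iff]
      exact fun i => converges_of_mem f hconv _ (b i).2
    filter_upwards [h1] with ω h1
    choose l hl using h1
    refine ⟨l, tendsto_pi_nhds.2 fun i => ?_⟩
    simp only [hMF, mul_one]
    exact hl i
  have hfix := fixed hU hi hlaw hsymm hadapted M hM (F 1) hw x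
  rw [hMF, mul_one] at hfix
  -- conclude for `f`
  have h1 : (⟨f, mem_self f⟩ : orbitSpan f) = ∑ i, b.repr ⟨f, mem_self f⟩ i • b i :=
    (b.sum_repr _).symm
  have h2 : ∀ y, f y = ∑ i, b.repr ⟨f, mem_self f⟩ i * F y i := by
    intro y
    have := congrArg (fun h : orbitSpan f => (h : G → ℝ) y) h1
    simp only at this
    rw [this, Submodule.coe_sum, Finset.sum_apply]
    rfl
  rw [h2 x, h2 1, hfix]

end Functions

end Pool.Agent.V11324.OrbitSpan
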